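import Pool.Agent.V11262.PD.Loop

/-!
# Wilson loops are bounded by connection probabilities of inhomogeneous percolation
-/

set_option autoImplicit false
set_option linter.unusedSectionVars false

noncomputable section

namespace Pool.Agent.V11262.PD

open MeasureTheory Measure Pool.Agent.V11262.OP Pool.Agent.H678R3.Perc

/-- in the time slices of the loop its two links of direction `k` are connected by `S` -/
def Ev (j k : Fin 4) (R T : ℕ) (x : Site) (S : Finset Plaq) : Prop :=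
  ∀ t < T, Cn k S (x + (t : ℤ) • uv k) (x + (R : ℤ) • uv j + (t : ℤ) • uv k)

lemma Ev.mono {j k : Fin 4} {R T : ℕ} {x : Site} {S S' : Finset Plaq} (h : S ⊆ S')
    (hS : Ev j k R T x S) : Ev j k R T x S' := fun t ht => (hS t ht).mono h

section

variable {G : Type} [Group G] [TopologicalSpace G] [IsTopologicalGroup G] [CompactSpace G]
  [SecondCountableTopology G] [MeasurableSpace G] [BorelSpace G] (σ : Measure G)
  [IsProbabilityMeasure σ] [σ.IsHaarMeasure] {w : Plaq → G → ℝ} {r : Plaq → ℝ}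

/-- the minimal weight -/
def lo (w : Plaq → G → ℝ) (r : Plaq → ℝ) (p : Plaq) : ℝ := ⨆ h : G, (1 - r p) * w p h

section

variable (hwb : ∀ p, Bd (w p)) (hw0 : ∀ p g, 0 ≤ w p g) (hr0 : ∀ p, 0 ≤ r p) (hr1 : ∀ p, r p ≤ 1)
  (hr : ∀ p g h, (1 - r p) * w p h ≤ w p g)

include hr in
lemma lo_le (p : Plaq) (g : G) : lo w r p ≤ w p g := ciSup_le fun h => hr p g h

include hwb hr1 in
lemma le_lo (p : Plaq) (g : G) : (1 - r p) * w p g ≤ lo w r p := by
  refine le_ciSup (f := fun h : G => (1 - r p) * w p h) ?_ g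
  obtain ⟨C, hC⟩ := hwb p
  refine ⟨(1 - r p) * C, ?_⟩
  rintro _ ⟨h, rfl⟩
  exact mul_le_mul_of_nonneg_left ((le_abs_self _).trans (hC h)) (by linarith [hr1 p])

include hwb hr1 hw0 in
lemma lo_nonneg (p : Plaq) : 0 ≤ lo w r p :=
  (mul_nonneg (by linarith [hr1 p]) (hw0 p 1)).trans (le_lo hwb hr1 p 1)

/-- the conditional probability that a plaquette is open -/
def qq (w : Plaq → G → ℝ) (r : Plaq → ℝ) (U : Link → G) (p : Plaq) : ℝ :=
  if w p (hol U p) = 0 then 0 else (w p (hol U p) - lo w r p) / w p (hol U p)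

include hwb hr1 hw0 hr in
lemma qq_bounds (hr0 : ∀ p, 0 ≤ r p) (U : Link → G) (p : Plaq) :
    0 ≤ qq w r U p ∧ qq w r U p ≤ r p := by
  unfold qq
  split_ifs with h
  · exact ⟨le_rfl, hr0 p⟩
  · have h0 : 0 < w p (hol U p) := lt_of_le_of_ne (hw0 p _) (Ne.symm h)
    constructor
    · exact div_nonneg (sub_nonneg.2 (lo_le hr p _)) h0.le
    · rw [div_le_iff₀ h0]
      have := le_lo hwb hr1 p (hol U p)
      linarith

include hwb hr1 hw0 hr in
lemma qq_mul (U : Link → G) (p : Plaq) :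
    qq w r U p * w p (hol U p) = w p (hol U p) - lo w r p := by
  unfold qq
  split_ifs with h
  · have h1 := lo_le hr p (hol U p)
    have h2 := lo_nonneg hwb hw0 hr1 p
    rw [h] at h1 ⊢
    linarith
  · field_simp

include hwb hr1 hw0 hr in
lemma qq_mul' (U : Link → G) (p : Plaq) :
    (1 - qq w r U p) * w p (hol U p) = lo w r p := by
  have := qq_mul hwb hw0 hr1 hr U p
  linarith

open Classical in
include hwb hr1 hw0 hr in
/-- the terms of the expansion in an increasing event, pointwise -/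
lemma pointwise (hr0 : ∀ p, 0 ≤ r p) (Λ : Finset Plaq) {P : Finset Plaq → Prop}
    (hP : ∀ S S', S ⊆ S' → P S → P S') (U : Link → G) :
    ∑ S ∈ Λ.powerset, (if P S then (∏ p ∈ S, (w p (hol U p) - lo w r p)) *
      ∏ p ∈ Λ \ S, lo w r p else 0) ≤
    B Λ r (fun S => if P S then 1 else 0) * wt w Λ U := by
  have h1 : ∑ S ∈ Λ.powerset, (if P S then (∏ p ∈ S, (w p (hol U p) - lo w r p)) *
      ∏ p ∈ Λ \ S, lo w r p else 0) =
      B Λ (qq w r U) (fun S => if P S then 1 else 0) * wt w Λ U := by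
    unfold B wt
    rw [Finset.sum_mul]
    refine Finset.sum_congr rfl fun S hS => ?_
    rw [Finset.mem_powerset] at hS
    by_cases hPS : P S
    · simp only [if_pos hPS, mul_one]
      rw [← Finset.prod_sdiff hS]
      rw [Finset.prod_congr rfl fun p _ => (qq_mul hwb hw0 hr1 hr U p).symm,
        Finset.prod_congr rfl fun p (_ : p ∈ Λ \ S) => (qq_mul' hwb hw0 hr1 hr U p).symm,
        Finset.prod_mul_distrib, Finset.prod_mul_distrib]
      ring
    · simp only [if_neg hPS, mul_zero, zero_mul]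
  rw [h1]
  refine mul_le_mul_of_nonneg_right ?_ (wt_nonneg hw0 Λ U)
  refine B_le_B (fun p => (qq_bounds hwb hw0 hr1 hr hr0 U p).1)
    (fun p => (qq_bounds hwb hw0 hr1 hr hr0 U p).2) hr1 Λ ?_
  intro S S' hSS
  by_cases h : P S
  · rw [if_pos h, if_pos (hP _ _ hSS h)]
  · rw [if_neg h]
    split_ifs <;> norm_num

end

/-- the terms in which a cluster is not neutral vanish -/
lemma vanish {N : ℕ} (hN : 0 < N) {π : G →* Matrix.unitaryGroup (Fin N) ℂ} (hπ : Continuous π)
    {z : G} (hz : ∀ g, z * g = g * z) {ζ : ℂ}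
    (hζ : (π z : Matrix (Fin N) (Fin N) ℂ) = ζ • (1 : Matrix (Fin N) (Fin N) ℂ))
    (hwm : ∀ p, Measurable (w p)) {x : Site} {γ : Path} {S : Finset Plaq} (c : Plaq → ℝ)
    {k : Fin 4} {u : Site} (hS : ζ ^ hs (sc k S u) x γ ≠ 1) :
    ∫ U, wl π x γ U * ((∏ p ∈ S, (w p (hol U p) - c p) : ℝ) : ℂ) ∂(PP σ) = 0 := by
  set s := sc k S u with hs'
  set f : (Link → G) → ℂ := fun U =>
    wl π x γ U * ((∏ p ∈ S, (w p (hol U p) - c p) : ℝ) : ℂ) with hf
  have hfm : Measurable f := by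
    refine (wl_meas hπ _ _).mul (Complex.measurable_ofReal.comp ?_)
    exact Finset.measurable_prod _ fun p _ => ((hwm p).comp (hol_meas p)).sub_const _
  have h1 := int_twist σ z s f hfm
  have h2 : ∀ U, f (twist z s U) = ζ ^ hs s x γ * f U := by
    intro U
    simp only [hf]
    rw [wl_twist hN π hz hζ]
    have h3 : ∏ p ∈ S, (w p (hol (twist z s U) p) - c p) = ∏ p ∈ S, (w p (hol U p) - c p) := by
      refine Finset.prod_congr rfl fun p hp => ?_
      rw [hol_twist hz, hs', flux_sc _ hp, zpow_zero, one_mul]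
    rw [h3, mul_assoc]
  simp only [h2] at h1
  rw [integral_const_mul] at h1
  have h3 : (ζ ^ hs s x γ - 1) * ∫ U, f U ∂(PP σ) = 0 := by
    rw [sub_mul, h1, one_mul, sub_self]
  rcases mul_eq_zero.1 h3 with h4 | h4
  · exact absurd (sub_eq_zero.1 h4) hS
  · exact h4

open Classical in
/-- **Wilson loops are bounded by connection probabilities.** -/
theorem core (hwm : ∀ p, Measurable (w p)) (hwb : ∀ p, Bd (w p)) (hw0 : ∀ p g, 0 ≤ w p g)
    (hr0 : ∀ p, 0 ≤ r p) (hr1 : ∀ p, r p ≤ 1) (hr : ∀ p g h, (1 - r p) * w p h ≤ w p g)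
    {N : ℕ} (hN : 0 < N) {π : G →* Matrix.unitaryGroup (Fin N) ℂ} (hπ : Continuous π)
    {z : G} (hz : ∀ g, z * g = g * z) {ζ : ℂ}
    (hζ : (π z : Matrix (Fin N) (Fin N) ℂ) = ζ • (1 : Matrix (Fin N) (Fin N) ℂ))
    {x : Site} {γ : Path} {P : Finset Plaq → Prop} (hPm : ∀ S S', S ⊆ S' → P S → P S')
    (hP : ∀ S, ¬ P S → ∃ (k : Fin 4) (u : Site), ζ ^ hs (sc k S u) x γ ≠ 1) (Λ : Finset Plaq) :
    ‖∫ U, wl π x γ U * ((wt w Λ U : ℝ) : ℂ) ∂(PP σ)‖ ≤
      N * B Λ r (fun S => if P S then 1 else 0) * ∫ U, wt w Λ U ∂(PP σ) := by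
  set W : (Link → G) → ℂ := wl π x γ with hW
  set v : Finset Plaq → (Link → G) → ℝ := fun S U => ∏ p ∈ S, (w p (hol U p) - lo w r p) with hv
  set c : Finset Plaq → ℝ := fun S => ∏ p ∈ Λ \ S, lo w r p with hc
  have hWm : Measurable W := wl_meas hπ _ _
  have hWb' : ∀ U, ‖W U‖ ≤ N := fun U => wl_norm π _ _ U
  have hvm : ∀ S, Measurable (v S) := fun S =>
    Finset.measurable_prod _ fun p _ => ((hwm p).comp (hol_meas p)).sub_const _
  have hvb : ∀ S, Bd (v S) := fun S =>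
    Bd.prod _ fun p _ => ((hwb p).comp _).sub (Bd.const _)
  have hv0 : ∀ S U, 0 ≤ v S U := fun S U =>
    Finset.prod_nonneg fun p _ => sub_nonneg.2 (lo_le hr p _)
  have hc0 : ∀ S, 0 ≤ c S := fun S => Finset.prod_nonneg fun p _ => lo_nonneg hwb hw0 hr1 p
  have hexp : ∀ U, wt w Λ U = ∑ S ∈ Λ.powerset, v S U * c S := by
    intro U
    have h := Finset.prod_add (fun p => w p (hol U p) - lo w r p) (fun p => lo w r p) Λ
    simp only [sub_add_cancel] at h
    exact h
  have hvan : ∀ S, ¬ P S → ∫ U, W U * ((v S U : ℝ) : ℂ) ∂(PP σ) = 0 := by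
    intro S hS
    obtain ⟨k, u, hku⟩ := hP S hS
    exact vanish (w := w) σ hN hπ hz hζ hwm (lo w r) hku
  have hi : ∀ S, Integrable (fun U => W U * ((v S U : ℝ) : ℂ)) (PP σ) := by
    intro S
    obtain ⟨C, hC⟩ := hvb S
    refine Integrable.of_bound (C := N * C) ?_ ?_
    · exact (hWm.mul (Complex.measurable_ofReal.comp (hvm S))).aestronglyMeasurable
    · refine Filter.Eventually.of_forall fun U => ?_
      rw [norm_mul, Complex.norm_real]
      exact mul_le_mul (hWb' U) (hC U) (norm_nonneg _) (Nat.cast_nonneg _)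
  have hi' : ∀ S, Integrable (v S) (PP σ) := fun S => (hvb S).integrable (hvm S)
  have e1 : ∫ U, W U * ((wt w Λ U : ℝ) : ℂ) ∂(PP σ) =
      ∑ S ∈ Λ.powerset, (c S : ℂ) * ∫ U, W U * ((v S U : ℝ) : ℂ) ∂(PP σ) := by
    have : ∀ U, W U * ((wt w Λ U : ℝ) : ℂ) =
        ∑ S ∈ Λ.powerset, (c S : ℂ) * (W U * ((v S U : ℝ) : ℂ)) := by
      intro U
      rw [hexp]
      push_cast
      rw [Finset.mul_sum]
      exact Finset.sum_congr rfl fun S _ => by ring
    simp only [this]
    rw [integral_finsetSum _ fun S _ => (hi S).const_mul _]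
    exact Finset.sum_congr rfl fun S _ => integral_const_mul _ _
  rw [e1]
  calc ‖∑ S ∈ Λ.powerset, (c S : ℂ) * ∫ U, W U * ((v S U : ℝ) : ℂ) ∂(PP σ)‖
      ≤ ∑ S ∈ Λ.powerset, ‖(c S : ℂ) * ∫ U, W U * ((v S U : ℝ) : ℂ) ∂(PP σ)‖ := norm_sum_le _ _
    _ ≤ ∑ S ∈ Λ.powerset, ∫ U, N * (if P S then v S U * c S else 0) ∂(PP σ) := by
        refine Finset.sum_le_sum fun S _ => ?_
        by_cases hS : P S
        · simp only [if_pos hS]
          rw [norm_mul, Complex.norm_real, Real.norm_eq_abs, abs_of_nonneg (hc0 S),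
            integral_const_mul, integral_mul_const]
          have h1 : ‖∫ U, W U * ((v S U : ℝ) : ℂ) ∂(PP σ)‖ ≤ N * ∫ U, v S U ∂(PP σ) := by
            rw [← integral_const_mul]
            refine norm_integral_le_of_norm_le ((hi' S).const_mul _)
              (Filter.Eventually.of_forall fun U => ?_)
            rw [norm_mul, Complex.norm_real, Real.norm_eq_abs, abs_of_nonneg (hv0 S U)]
            exact mul_le_mul_of_nonneg_right (hWb' U) (hv0 S U)
          calc c S * ‖∫ U, W U * ((v S U : ℝ) : ℂ) ∂(PP σ)‖ ≤ c S * (N * ∫ U, v S U ∂(PP σ)) :=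
                mul_le_mul_of_nonneg_left h1 (hc0 S)
            _ = _ := by ring
        · simp only [if_neg hS]
          rw [hvan S hS]
          simp
    _ = ∫ U, N * ∑ S ∈ Λ.powerset, (if P S then v S U * c S else 0) ∂(PP σ) := by
        rw [← integral_finsetSum]
        · congr 1
          funext U
          rw [Finset.mul_sum]
        · intro S _
          refine Integrable.const_mul ?_ _
          by_cases hS : P S
          · simp only [if_pos hS]
            exact (hi' S).mul_const _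
          · simp only [if_neg hS]
            exact integrable_zero _ _ _
    _ ≤ ∫ U, N * (B Λ r (fun S => if P S then 1 else 0) * wt w Λ U) ∂(PP σ) := by
        refine integral_mono ?_ ?_ fun U => ?_
        · refine Integrable.const_mul (integrable_finsetSum _ fun S _ => ?_) _
          by_cases hS : P S
          · simp only [if_pos hS]
            exact (hi' S).mul_const _
          · simp only [if_neg hS]
            exact integrable_zero _ _ _
        · exact (((wt_bd hwb Λ).integrable (wt_meas hwm Λ)).const_mul _).const_mul _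
        · refine mul_le_mul_of_nonneg_left ?_ (Nat.cast_nonneg _)
          exact pointwise hwb hw0 hr1 hr hr0 Λ hPm U
    _ = _ := by
        rw [integral_const_mul, integral_const_mul]
        ring

/-- complex expectations in a finite region -/
def ex (w : Plaq → G → ℝ) (Λ : Finset Plaq) (F : (Link → G) → ℂ) : ℂ :=
  (∫ U, F U * ((wt w Λ U : ℝ) : ℂ) ∂(PP σ)) / ((∫ U, wt w Λ U ∂(PP σ) : ℝ) : ℂ)

open Classical in
/-- the bound for the expectation -/
theorem core' (hwm : ∀ p, Measurable (w p)) (hwb : ∀ p, Bd (w p)) (hw0 : ∀ p g, 0 ≤ w p g)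
    (hr0 : ∀ p, 0 ≤ r p) (hr1 : ∀ p, r p ≤ 1) (hr : ∀ p g h, (1 - r p) * w p h ≤ w p g)
    {N : ℕ} {π : G →* Matrix.unitaryGroup (Fin N) ℂ} (hπ : Continuous π)
    {z : G} (hz : ∀ g, z * g = g * z) {ζ : ℂ}
    (hζ : (π z : Matrix (Fin N) (Fin N) ℂ) = ζ • (1 : Matrix (Fin N) (Fin N) ℂ))
    {x : Site} {γ : Path} {P : Finset Plaq → Prop} (hPm : ∀ S S', S ⊆ S' → P S → P S')
    (hP : ∀ S, ¬ P S → ∃ (k : Fin 4) (u : Site), ζ ^ hs (sc k S u) x γ ≠ 1) (Λ : Finset Plaq) :
    ‖ex σ w Λ (wl π x γ)‖ ≤ N * B Λ r (fun S => if P S then 1 else 0) := by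
  have hB : 0 ≤ B Λ r (fun S => if P S then (1 : ℝ) else 0) :=
    B_nonneg hr0 hr1 fun S _ => by split_ifs <;> norm_num
  rcases Nat.eq_zero_or_pos N with rfl | hN
  · have h0 : ∀ U : Link → G, wl π x γ U = 0 := by
      intro U
      have h1 := wl_norm π x γ U
      rw [Nat.cast_zero] at h1
      exact norm_le_zero_iff.1 h1
    unfold ex
    simp [h0]
  · have h := core σ hwm hwb hw0 hr0 hr1 hr hN hπ hz hζ hPm hP Λ
    have hZ : 0 ≤ ∫ U, wt w Λ U ∂(PP σ) := integral_nonneg fun U => wt_nonneg hw0 _ U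
    unfold ex
    rw [norm_div, Complex.norm_real, Real.norm_eq_abs, abs_of_nonneg hZ]
    rcases hZ.eq_or_lt with h0 | h0
    · rw [← h0, div_zero]
      positivity
    · rw [div_le_iff₀ h0]
      exact h

open Classical in
/-- the bound by the time slices in the second direction of the rectangle -/
theorem core_k (hwm : ∀ p, Measurable (w p)) (hwb : ∀ p, Bd (w p)) (hw0 : ∀ p g, 0 ≤ w p g)
    (hr0 : ∀ p, 0 ≤ r p) (hr1 : ∀ p, r p ≤ 1) (hr : ∀ p g h, (1 - r p) * w p h ≤ w p g)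
    {N : ℕ} {π : G →* Matrix.unitaryGroup (Fin N) ℂ} (hπ : Continuous π)
    {z : G} (hz : ∀ g, z * g = g * z) {ζ : ℂ}
    (hζ : (π z : Matrix (Fin N) (Fin N) ℂ) = ζ • (1 : Matrix (Fin N) (Fin N) ℂ)) (hζ1 : ζ ≠ 1)
    {j k : Fin 4} (hjk : j ≠ k) (x : Site) (R T : ℕ) (Λ : Finset Plaq) :
    ‖ex σ w Λ (wl π x (rct j k R T))‖ ≤
      N * B Λ r (fun S => if Ev j k R T x S then 1 else 0) := by
  refine core' σ hwm hwb hw0 hr0 hr1 hr hπ hz hζ (P := Ev j k R T x) (fun S S' h hS => hS.mono h)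
    ?_ Λ
  intro S hS
  unfold Ev at hS
  push Not at hS
  obtain ⟨t, ht, hc⟩ := hS
  refine ⟨k, x + (t : ℤ) • uv k, ?_⟩
  rw [hs_sc hjk ht hc, zpow_neg, zpow_one]
  exact fun h => hζ1 (inv_eq_one.1 h)

open Classical in
/-- the bound by the time slices in the first direction of the rectangle -/
theorem core_j (hwm : ∀ p, Measurable (w p)) (hwb : ∀ p, Bd (w p)) (hw0 : ∀ p g, 0 ≤ w p g)
    (hr0 : ∀ p, 0 ≤ r p) (hr1 : ∀ p, r p ≤ 1) (hr : ∀ p g h, (1 - r p) * w p h ≤ w p g)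
    {N : ℕ} {π : G →* Matrix.unitaryGroup (Fin N) ℂ} (hπ : Continuous π)
    {z : G} (hz : ∀ g, z * g = g * z) {ζ : ℂ}
    (hζ : (π z : Matrix (Fin N) (Fin N) ℂ) = ζ • (1 : Matrix (Fin N) (Fin N) ℂ)) (hζ1 : ζ ≠ 1)
    {j k : Fin 4} (hjk : j ≠ k) (x : Site) (R T : ℕ) (Λ : Finset Plaq) :
    ‖ex σ w Λ (wl π x (rct j k R T))‖ ≤
      N * B Λ r (fun S => if Ev k j T R x S then 1 else 0) := by
  refine core' σ hwm hwb hw0 hr0 hr1 hr hπ hz hζ (P := Ev k j T R x) (fun S S' h hS => hS.mono h)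
    ?_ Λ
  intro S hS
  unfold Ev at hS
  push Not at hS
  obtain ⟨t, ht, hc⟩ := hS
  refine ⟨j, x + (t : ℤ) • uv j, ?_⟩
  rw [hs_sc' hjk ht hc, zpow_one]
  exact hζ1

end

end Pool.Agent.V11262.PD
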