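import Pool.Agent.V11262.PD.Core

/-!
# Decay of the connection probabilities of the time slices
-/

set_option autoImplicit false
set_option linter.unusedSectionVars false

noncomputable section

namespace Pool.Agent.V11262.PD

open Pool.Agent.V11262.OP Pool.Agent.H678R3.Perc

/-- the other direction of a plaquette which contains links of direction `k` -/
def ot (k : Fin 4) (p : Plaq) : Fin 4 := if p.1.2.1 = k then p.1.2.2 else p.1.2.1

lemma tg_eq {k : Fin 4} {p : Plaq} (h : isK k p) : tg k p = sr p + uv (ot k p) := by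
  unfold tg ot sr
  rcases h with h | h
  · rw [if_pos h, if_pos h]
  · have h1 : p.1.2.1 ≠ k := by rw [← h]; exact p.2.ne
    rw [if_neg h1, if_pos h, if_neg h1]

lemma tg_eq' {k : Fin 4} {p : Plaq} (h : ¬ isK k p) : tg k p = sr p := by
  unfold isK at h
  push Not at h
  unfold tg sr
  rw [if_neg h.1, if_neg h.2]

lemma ot_ne {k : Fin 4} (p : Plaq) (h : isK k p) : ot k p ≠ k := by
  unfold ot
  rcases h with h | h
  · rw [if_pos h, ← h]
    exact p.2.ne'
  · have h1 : p.1.2.1 ≠ k := by rw [← h]; exact p.2.ne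
    rw [if_neg h1]
    exact h1

lemma ot_inj {k : Fin 4} {p q : Plaq} (hp : isK k p) (hq : isK k q) (h : sr p = sr q)
    (ho : ot k p = ot k q) : p = q := by
  obtain ⟨⟨x, a, b⟩, hab⟩ := p
  obtain ⟨⟨y, c, d⟩, hcd⟩ := q
  have hab' : a < b := hab
  have hcd' : c < d := hcd
  simp only [isK] at hp hq
  simp only [sr] at h
  simp only [ot] at ho
  have key : a = c ∧ b = d := by
    rcases hp with hp | hp <;> rcases hq with hq | hq
    · rw [if_pos hp, if_pos hq] at ho
      exact ⟨hp.trans hq.symm, ho⟩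
    · have hc : c ≠ k := by rw [← hq]; exact hcd'.ne
      rw [if_pos hp, if_neg hc] at ho
      exfalso
      rw [ho] at hab'
      rw [hq, ← hp] at hcd'
      exact absurd (lt_trans hab' hcd') (lt_irrefl _)
    · have ha : a ≠ k := by rw [← hp]; exact hab'.ne
      rw [if_neg ha, if_pos hq] at ho
      exfalso
      rw [← ho] at hcd'
      rw [hp, ← hq] at hab'
      exact absurd (lt_trans hcd' hab') (lt_irrefl _)
    · have ha : a ≠ k := by rw [← hp]; exact hab'.ne
      have hc : c ≠ k := by rw [← hq]; exact hcd'.ne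
      rw [if_neg ha, if_neg hc] at ho
      exact ⟨ho, hp.trans hq.symm⟩
  obtain ⟨rfl, rfl⟩ := key
  subst h
  rfl

lemma card_erase4 (k : Fin 4) : ((Finset.univ : Finset (Fin 4)).erase k).card = 3 := by
  rw [Finset.card_erase_of_mem (Finset.mem_univ _)]
  rfl

/-- the plaquettes with links of direction `k` at height `a` -/
def Lv (Λ : Finset Plaq) (k : Fin 4) (a : ℤ) : Finset Plaq :=
  Λ.filter fun p => isK k p ∧ p.1.1 k = a

lemma mem_Lv {Λ : Finset Plaq} {k : Fin 4} {a : ℤ} {p : Plaq} :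
    p ∈ Lv Λ k a ↔ p ∈ Λ ∧ isK k p ∧ p.1.1 k = a := by
  unfold Lv
  rw [Finset.mem_filter]

lemma Cn_Lv {Λ : Finset Plaq} {k : Fin 4} {S : Finset Plaq} (hS : S ⊆ Λ) {u v : Site}
    (h : Cn k S u v) : Cn k (S ∩ Lv Λ k (u k)) u v := by
  induction h with
  | refl => exact Relation.ReflTransGen.refl
  | @tail b c hb hbc ih =>
    obtain ⟨_, _, p, hp, h3⟩ := hbc
    have hbu := Cn_level hb
    by_cases hk : isK k p
    · have hpl : p ∈ S ∩ Lv Λ k (u k) := by
        rw [Finset.mem_inter, mem_Lv]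
        refine ⟨hp, hS hp, hk, ?_⟩
        have h4 := tg_k k p
        change sr p k = u k
        rcases h3 with ⟨h1, h2⟩ | ⟨h1, h2⟩
        · rw [h1, hbu]
        · rw [← h4, h2, hbu]
      exact ih.tail ⟨trivial, trivial, p, hpl, h3⟩
    · have h4 := tg_eq' hk
      have h5 : b = c := by
        rcases h3 with ⟨h1, h2⟩ | ⟨h1, h2⟩
        · rw [← h1, ← h2, h4]
        · rw [← h1, ← h2, h4]
      rw [← h5]
      exact ih

/-- the connection probability in one time slice -/
lemma slice {r : Plaq → ℝ} (hr0 : ∀ p, 0 ≤ r p) (hr1 : ∀ p, r p ≤ 1) {ρ : ℝ} (hρ0 : 0 ≤ ρ)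
    (hρ1 : 6 * ρ ≤ 1) {Λ : Finset Plaq} {j k : Fin 4} {a : ℤ}
    (hρ : ∀ p ∈ Lv Λ k a, r p ≤ ρ) (R : ℕ) (u : Site) (hjk : j ≠ k) :
    cps sr (tg k) (Lv Λ k a) r Set.univ u (u + (R : ℤ) • uv j) ≤ (6 * ρ) ^ R := by
  have h := decay (src := sr) (tgt := tg k) (s := Lv Λ k a) (p := r) hr0 hr1 hρ0 hρ (D := 6)
    (h := fun z => (z j - (u j + R)).natAbs) (x := u) (y := u + (R : ℤ) • uv j)
    (by
      intro z t ht hz
      have h1 : t.card ≤ ((Finset.univ : Finset (Fin 4)).erase k).card := by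
        refine Finset.card_le_card_of_injOn (ot k) ?_ ?_
        · intro p hp
          exact Finset.mem_coe.2 (Finset.mem_erase.2
            ⟨ot_ne p (mem_Lv.1 (ht hp)).2.1, Finset.mem_univ _⟩)
        · intro p hp q hq hpq
          exact ot_inj (mem_Lv.1 (ht hp)).2.1 (mem_Lv.1 (ht hq)).2.1
            ((hz p hp).1.trans (hz q hq).1.symm) hpq
      rw [card_erase4] at h1
      omega)
    (by
      intro z t ht hz
      have h1 : t.card ≤ ((Finset.univ : Finset (Fin 4)).erase k).card := by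
        refine Finset.card_le_card_of_injOn (ot k) ?_ ?_
        · intro p hp
          exact Finset.mem_coe.2 (Finset.mem_erase.2
            ⟨ot_ne p (mem_Lv.1 (ht hp)).2.1, Finset.mem_univ _⟩)
        · intro p hp q hq hpq
          have hp' := (mem_Lv.1 (ht hp)).2.1
          have hq' := (mem_Lv.1 (ht hq)).2.1
          refine ot_inj hp' hq' ?_ hpq
          have e1 := (hz p hp).1
          have e2 := (hz q hq).1
          rw [tg_eq hp'] at e1
          rw [tg_eq hq'] at e2
          rw [hpq] at e1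
          exact add_right_cancel (e1.trans e2.symm)
      rw [card_erase4] at h1
      omega)
    (by norm_num; linarith)
    (by
      intro p hp
      have hk := (mem_Lv.1 hp).2.1
      simp only [tg_eq hk]
      rw [Pi.add_apply]
      by_cases hj : j = ot k p
      · rw [hj, uv_same]
        omega
      · rw [uv_ne hj]
        omega)
    (by
      change ((u + (R : ℤ) • uv j) j - (u j + R)).natAbs = 0
      rw [Pi.add_apply, Pi.smul_apply, uv_same]
      simp)
  simp only [Nat.cast_ofNat] at h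
  refine h.trans_eq ?_
  congr 1
  omega

open Classical in
/-- **Decay.** -/
theorem decay_ev {r : Plaq → ℝ} (hr0 : ∀ p, 0 ≤ r p) (hr1 : ∀ p, r p ≤ 1) {ρ : ℝ} (hρ0 : 0 ≤ ρ)
    (hρ1 : 6 * ρ ≤ 1) (Λ : Finset Plaq) {j k : Fin 4} (hjk : j ≠ k) {R T : ℕ} {x : Site}
    (I : Finset ℕ) (hI : ∀ t ∈ I, t < T)
    (hρ : ∀ t ∈ I, ∀ p ∈ Λ, isK k p → p.1.1 k = x k + t → r p ≤ ρ) :
    B Λ r (fun S => if Ev j k R T x S then 1 else 0) ≤ (6 * ρ) ^ (R * I.card) := by
  set C : ℕ → Finset Plaq := fun t => Lv Λ k (x k + t) with hC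
  set f : ℕ → Finset Plaq → ℝ := fun t S => if Conn sr (tg k) Set.univ S (x + (t : ℤ) • uv k)
    (x + (t : ℤ) • uv k + (R : ℤ) • uv j) then 1 else 0 with hf
  have h1 : B Λ r (fun S => if Ev j k R T x S then 1 else 0) ≤
      B Λ r (fun S => ∏ t ∈ I, f t (S ∩ C t)) := by
    refine B_mono hr0 hr1 fun S hS => ?_
    by_cases h : Ev j k R T x S
    · rw [if_pos h]
      refine le_of_eq (Finset.prod_eq_one fun t ht => ?_).symm
      simp only [hf]
      refine if_pos ?_
      have h2 := Cn_Lv hS (h t (hI t ht))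
      rw [single_lev0] at h2
      rw [show x + (t : ℤ) • uv k + (R : ℤ) • uv j = x + (R : ℤ) • uv j + (t : ℤ) • uv k by abel]
      exact h2
    · rw [if_neg h]
      exact Finset.prod_nonneg fun t _ => by simp only [hf]; split_ifs <;> norm_num
  rw [B_prod r C f I Λ (fun t _ p hp => (mem_Lv.1 hp).1) (fun t _ t' _ hne => by
    rw [Finset.disjoint_left]
    intro p hp hp'
    have e1 := (mem_Lv.1 hp).2.2
    have e2 := (mem_Lv.1 hp').2.2
    omega)] at h1
  refine h1.trans ?_
  have h2 : ∀ t ∈ I, B (C t) r (f t) ≤ (6 * ρ) ^ R := by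
    intro t ht
    have h3 := slice (Λ := Λ) (a := x k + t) hr0 hr1 hρ0 hρ1 (fun p hp => by
      rw [mem_Lv] at hp
      exact hρ t ht p hp.1 hp.2.1 hp.2.2) R (x + (t : ℤ) • uv k) hjk
    exact h3
  calc ∏ t ∈ I, B (C t) r (f t) ≤ ∏ _t ∈ I, (6 * ρ) ^ R := by
        refine Finset.prod_le_prod (fun t _ => ?_) h2
        exact B_nonneg hr0 hr1 fun S _ => by simp only [hf]; split_ifs <;> norm_num
    _ = (6 * ρ) ^ (R * I.card) := by rw [Finset.prod_const, ← pow_mul]

end Pool.Agent.V11262.PD
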