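import Pool.Agent.H678R3.Perc

/-!
# Inhomogeneous percolation on finite sets of edges: independence of disjoint sets, exponential decay
-/

set_option autoImplicit false

namespace Pool.Agent.V11262.PD

open Finset Pool.Agent.H678R3.Perc

section indep

variable {E : Type} [DecidableEq E]

lemma B_const_mul (s : Finset E) (p : E → ℝ) (c : ℝ) (f : Finset E → ℝ) :
    B s p (fun S => c * f S) = c * B s p f := by
  unfold B
  rw [mul_sum]
  exact sum_congr rfl fun S _ => by ring

lemma B_empty (p : E → ℝ) (f : Finset E → ℝ) : B ∅ p f = f ∅ := by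
  simp [B]

lemma B_union {s t : Finset E} (hd : Disjoint s t) (p : E → ℝ) : ∀ f : Finset E → ℝ,
    B (s ∪ t) p f = B s p (fun S => B t p (fun S' => f (S ∪ S'))) := by
  induction s using Finset.induction_on with
  | empty =>
    intro f
    rw [B_empty, empty_union]
    exact B_congr fun S _ => by rw [empty_union]
  | insert a s ha ih =>
    intro f
    have hat : a ∉ t := fun h => (disjoint_left.mp hd (mem_insert_self _ _)) h
    have hd' : Disjoint s t := hd.mono_left (subset_insert _ _)
    have hau : a ∉ s ∪ t := by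
      rw [mem_union]
      rintro (h | h)
      · exact ha h
      · exact hat h
    rw [insert_union, B_insert hau, B_insert ha, ih hd', ih hd']
    congr 2
    refine B_congr fun S _ => B_congr fun S' _ => ?_
    rw [insert_union]

lemma B_mul {s t : Finset E} (hd : Disjoint s t) (p : E → ℝ) {f g : Finset E → ℝ}
    (hf : ∀ S S', S' ⊆ t → f (S ∪ S') = f S) (hg : ∀ S S', S ⊆ s → g (S ∪ S') = g S') :
    B (s ∪ t) p (fun S => f S * g S) = B s p f * B t p g := by
  rw [B_union hd]
  have h1 : ∀ S ⊆ s, B t p (fun S' => f (S ∪ S') * g (S ∪ S')) = B t p g * f S := by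
    intro S hS
    have h2 : B t p (fun S' => f (S ∪ S') * g (S ∪ S')) = B t p (fun S' => f S * g S') :=
      B_congr fun S' hS' => by rw [hf S S' hS', hg S S' hS]
    rw [h2, B_const_mul, mul_comm]
  rw [B_congr h1, B_const_mul, mul_comm]

/-- functions of disjoint sets of edges are independent -/
lemma B_prod {ι : Type} [DecidableEq ι] (p : E → ℝ) (C : ι → Finset E) (f : ι → Finset E → ℝ)
    (I : Finset ι) : ∀ s : Finset E, (∀ i ∈ I, C i ⊆ s) →
      (∀ i ∈ I, ∀ j ∈ I, i ≠ j → Disjoint (C i) (C j)) →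
      B s p (fun S => ∏ i ∈ I, f i (S ∩ C i)) = ∏ i ∈ I, B (C i) p (f i) := by
  induction I using Finset.induction_on with
  | empty =>
    intro s _ _
    simp only [prod_empty]
    exact B_one s p
  | insert i I hi ih =>
    intro s hC hd
    have hCi : C i ⊆ s := hC i (mem_insert_self _ _)
    have hsub : ∀ j ∈ I, C j ⊆ s \ C i := by
      intro j hj e he
      rw [mem_sdiff]
      refine ⟨hC j (mem_insert_of_mem hj) he, fun h => ?_⟩
      have hne : i ≠ j := fun h' => hi (h' ▸ hj)
      exact disjoint_left.mp (hd i (mem_insert_self _ _) j (mem_insert_of_mem hj) hne) h he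
    have ih' := ih (s \ C i) hsub
      (fun j hj l hl => hd j (mem_insert_of_mem hj) l (mem_insert_of_mem hl))
    rw [prod_insert hi, ← ih']
    have hs : s = C i ∪ (s \ C i) := (union_sdiff_of_subset hCi).symm
    have hdis : Disjoint (C i) (s \ C i) := disjoint_sdiff
    conv_lhs => rw [hs]
    have h1 : (fun S => ∏ j ∈ insert i I, f j (S ∩ C j)) =
        fun S => f i (S ∩ C i) * ∏ j ∈ I, f j (S ∩ C j) := by
      funext S
      rw [prod_insert hi]
    rw [h1, B_mul hdis p (f := fun S => f i (S ∩ C i))]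
    · congr 1
      exact B_congr fun S hS => by rw [inter_eq_left.2 hS]
    · intro S S' hS'
      have : S' ∩ C i = ∅ := by
        rw [← disjoint_iff_inter_eq_empty]
        exact (hdis.mono_right hS').symm
      simp only [union_inter_distrib_right, this, union_empty]
    · intro S S' hS
      refine prod_congr rfl fun j hj => ?_
      have : S ∩ C j = ∅ := by
        rw [← disjoint_iff_inter_eq_empty]
        exact (hdis.mono hS (hsub j hj))
      rw [union_inter_distrib_right, this, empty_union]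

end indep

section conn

variable {X E : Type} [DecidableEq E] (src tgt : E → X)

/-- `u` and `v` are the ends of an edge of `S`, both in `A` -/
def Adj (A : Set X) (S : Finset E) (u v : X) : Prop :=
  u ∈ A ∧ v ∈ A ∧ ∃ e ∈ S, (src e = u ∧ tgt e = v) ∨ (src e = v ∧ tgt e = u)

/-- `x` and `y` are connected by edges of `S` with all ends in `A` -/
def Conn (A : Set X) (S : Finset E) (x y : X) : Prop :=
  Relation.ReflTransGen (Adj src tgt A S) x y

open Classical in
/-- the probability that `x` and `y` are connected inside `A` by open edges of `s` -/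
noncomputable def cps (s : Finset E) (p : E → ℝ) (A : Set X) (x y : X) : ℝ :=
  B s p fun S => if Conn src tgt A S x y then 1 else 0

variable {src tgt} {s : Finset E} {p : E → ℝ}

omit [DecidableEq E] in
lemma Conn.mono {A : Set X} {S S' : Finset E} (h : S ⊆ S') {u v : X}
    (ha : Conn src tgt A S u v) : Conn src tgt A S' u v :=
  Relation.ReflTransGen.mono (fun _ _ hab => by
    obtain ⟨h1, h2, e, he, h3⟩ := hab
    exact ⟨h1, h2, e, h he, h3⟩) _ _ ha

lemma cps_nonneg (h0 : ∀ e, 0 ≤ p e) (h1 : ∀ e, p e ≤ 1) (A : Set X) (x y : X) :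
    0 ≤ cps src tgt s p A x y :=
  B_nonneg h0 h1 fun S _ => by split_ifs <;> norm_num

lemma cps_le_one (h0 : ∀ e, 0 ≤ p e) (h1 : ∀ e, p e ≤ 1) (A : Set X) (x y : X) :
    cps src tgt s p A x y ≤ 1 := by
  refine (B_mono h0 h1 (g := fun _ => 1) fun S _ => ?_).trans_eq (B_one _ _)
  split_ifs <;> norm_num

omit [DecidableEq E] in
lemma exit {A : Set X} {S : Finset E} {x y : X} (h : Conn src tgt A S x y) :
    x = y ∨ ∃ z, z ≠ x ∧ Adj src tgt A S x z ∧ Conn src tgt (A \ {x}) S z y := by
  induction h with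
  | refl => exact Or.inl rfl
  | @tail b c _ hbc ih =>
    by_cases hc : c = x
    · exact Or.inl hc.symm
    right
    by_cases hb : b = x
    · subst hb
      exact ⟨c, hc, hbc, Relation.ReflTransGen.refl⟩
    · rcases ih with ih | ⟨z, hz, hxz, hzb⟩
      · exact absurd ih.symm hb
      · obtain ⟨g1, g2, g3⟩ := hbc
        exact ⟨z, hz, hxz, hzb.tail ⟨⟨g1, hb⟩, ⟨g2, hc⟩, g3⟩⟩

lemma conn_insert {A : Set X} {S : Finset E} {x z y : X} {e : E} (he : src e = x ∨ tgt e = x) :
    Conn src tgt (A \ {x}) (insert e S) z y ↔ Conn src tgt (A \ {x}) S z y := by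
  constructor
  · refine fun h => Relation.ReflTransGen.mono (fun u v huv => ?_) _ _ h
    obtain ⟨h1, h2, e', he', h3⟩ := huv
    refine ⟨h1, h2, e', ?_, h3⟩
    rcases mem_insert.mp he' with rfl | h4
    · exfalso
      rcases he with he | he <;> rcases h3 with ⟨h5, h6⟩ | ⟨h5, h6⟩
      · exact h1.2 (by rw [← h5, he]; rfl)
      · exact h2.2 (by rw [← h5, he]; rfl)
      · exact h2.2 (by rw [← h6, he]; rfl)
      · exact h1.2 (by rw [← h6, he]; rfl)
    · exact h4
  · exact fun h => h.mono (subset_insert _ _)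

open Classical in
/-- first step of a self-avoiding path -/
lemma cps_step (h0 : ∀ e, 0 ≤ p e) (h1 : ∀ e, p e ≤ 1) (A : Set X) {x y : X} (hxy : x ≠ y) :
    cps src tgt s p A x y ≤
      (∑ e ∈ s.filter (fun e => src e = x ∧ tgt e ≠ x ∧ tgt e ∈ A),
          p e * cps src tgt s p (A \ {x}) (tgt e) y) +
      ∑ e ∈ s.filter (fun e => tgt e = x ∧ src e ≠ x ∧ src e ∈ A),
          p e * cps src tgt s p (A \ {x}) (src e) y := by
  have e1 : ∀ e ∈ s.filter (fun e => src e = x ∧ tgt e ≠ x ∧ tgt e ∈ A),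
      p e * cps src tgt s p (A \ {x}) (tgt e) y =
      B s p (fun S => if e ∈ S then
        (if Conn src tgt (A \ {x}) S (tgt e) y then (1:ℝ) else 0) else 0) := by
    intro e he
    rw [mem_filter] at he
    rw [B_mem he.1]
    · rfl
    · intro S _
      simp only [conn_insert (Or.inl he.2.1)]
  have e2 : ∀ e ∈ s.filter (fun e => tgt e = x ∧ src e ≠ x ∧ src e ∈ A),
      p e * cps src tgt s p (A \ {x}) (src e) y =
      B s p (fun S => if e ∈ S then
        (if Conn src tgt (A \ {x}) S (src e) y then (1:ℝ) else 0) else 0) := by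
    intro e he
    rw [mem_filter] at he
    rw [B_mem he.1]
    · rfl
    · intro S _
      simp only [conn_insert (Or.inr he.2.1)]
  rw [sum_congr rfl e1, sum_congr rfl e2, ← B_sum, ← B_sum]
  have e3 : ∀ f g : Finset E → ℝ, B s p f + B s p g = B s p (fun S => f S + g S) := by
    intro f g
    unfold B
    rw [← sum_add_distrib]
    exact sum_congr rfl fun S _ => by ring
  rw [e3]
  unfold cps
  refine B_mono h0 h1 fun S hS => ?_
  have n1 : ∀ e : E, (0:ℝ) ≤ (if e ∈ S then
        (if Conn src tgt (A \ {x}) S (tgt e) y then (1:ℝ) else 0) else 0) := by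
    intro e; split_ifs <;> norm_num
  have n2 : ∀ e : E, (0:ℝ) ≤ (if e ∈ S then
        (if Conn src tgt (A \ {x}) S (src e) y then (1:ℝ) else 0) else 0) := by
    intro e; split_ifs <;> norm_num
  by_cases h : Conn src tgt A S x y
  · rw [if_pos h]
    rcases exit h with h2 | ⟨z, hz, ⟨hx, hzA, e, he, h3⟩, h4⟩
    · exact absurd h2 hxy
    · rcases h3 with ⟨h5, h6⟩ | ⟨h5, h6⟩
      · subst h6
        have := single_le_sum (fun e _ => n1 e)
          (mem_filter.2 ⟨hS he, h5, hz, hzA⟩ :
            e ∈ s.filter (fun e => src e = x ∧ tgt e ≠ x ∧ tgt e ∈ A))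
        rw [if_pos he, if_pos h4] at this
        have h7 := sum_nonneg fun e (_ : e ∈ s.filter
          (fun e => tgt e = x ∧ src e ≠ x ∧ src e ∈ A)) => n2 e
        linarith
      · subst h5
        have := single_le_sum (fun e _ => n2 e)
          (mem_filter.2 ⟨hS he, h6, hz, hzA⟩ :
            e ∈ s.filter (fun e => tgt e = x ∧ src e ≠ x ∧ src e ∈ A))
        rw [if_pos he, if_pos h4] at this
        have h7 := sum_nonneg fun e (_ : e ∈ s.filter
          (fun e => src e = x ∧ tgt e ≠ x ∧ tgt e ∈ A)) => n1 e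
        linarith
  · rw [if_neg h]
    exact add_nonneg (sum_nonneg fun e _ => n1 e) (sum_nonneg fun e _ => n2 e)

open Classical in
lemma decay_aux (h0 : ∀ e, 0 ≤ p e) (h1 : ∀ e, p e ≤ 1) {ρ : ℝ} (hρ0 : 0 ≤ ρ)
    (hρ : ∀ e ∈ s, p e ≤ ρ) {D : ℕ} (hD : ∀ x,
      (s.filter (fun e => src e = x ∧ tgt e ≠ x)).card +
        (s.filter (fun e => tgt e = x ∧ src e ≠ x)).card ≤ D) (hDρ : D * ρ ≤ 1) {h : X → ℕ}
    (hh : ∀ e ∈ s, h (src e) ≤ h (tgt e) + 1 ∧ h (tgt e) ≤ h (src e) + 1) {y : X} (hy : h y = 0) :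
    ∀ (n : ℕ) (A : Finset X), A.card = n → ∀ x ∈ A,
      cps src tgt s p (A : Set X) x y ≤ (D * ρ) ^ h x := by
  have hc0 : 0 ≤ D * ρ := by positivity
  intro n
  induction n with
  | zero =>
    intro A hA x hx
    rw [card_eq_zero.mp hA] at hx
    exact absurd hx (notMem_empty x)
  | succ n ih =>
    intro A hAn x hx
    rcases Nat.eq_zero_or_pos (h x) with hx0 | hx0
    · rw [hx0, pow_zero]
      exact cps_le_one h0 h1 _ _ _
    have hxy : x ≠ y := by
      rintro rfl
      omega
    have hc : (A.erase x).card = n := by rw [card_erase_of_mem hx, hAn]; rfl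
    have hcoe : ((A : Set X) \ {x}) = ((A.erase x : Finset X) : Set X) := by
      rw [coe_erase]
    have step := cps_step (src := src) (tgt := tgt) (s := s) h0 h1 (A : Set X) hxy
    rw [hcoe] at step
    have key : ∀ e ∈ s, ∀ z ∈ A.erase x, h x ≤ h z + 1 →
        p e * cps src tgt s p ((A.erase x : Finset X) : Set X) z y ≤ ρ * (D * ρ) ^ (h x - 1) := by
      intro e he z hz hxz
      refine mul_le_mul (hρ e he) ((ih _ hc z hz).trans ?_) (cps_nonneg h0 h1 _ _ _) hρ0
      exact pow_le_pow_of_le_one hc0 hDρ (by omega)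
    have h3 : (D * ρ) ^ h x = D * (ρ * (D * ρ) ^ (h x - 1)) := by
      rw [← mul_assoc, ← pow_succ']
      congr 1
      omega
    have h4 : (((s.filter (fun e => src e = x ∧ tgt e ≠ x)).card +
        (s.filter (fun e => tgt e = x ∧ src e ≠ x)).card : ℕ) : ℝ) *
          (ρ * (D * ρ) ^ (h x - 1)) ≤ D * (ρ * (D * ρ) ^ (h x - 1)) :=
      mul_le_mul_of_nonneg_right (by exact_mod_cast hD x) (by positivity)
    rw [h3]
    push_cast at h4
    rw [add_mul] at h4
    refine step.trans ((add_le_add ?_ ?_).trans h4)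
    · rw [← nsmul_eq_mul]
      refine (sum_le_card_nsmul _ _ (ρ * (D * ρ) ^ (h x - 1)) fun e he => ?_).trans ?_
      · simp only [mem_filter] at he
        refine key e he.1 _ (mem_erase.2 ⟨he.2.2.1, he.2.2.2⟩) ?_
        have := (hh e he.1).1
        rw [he.2.1] at this
        exact this
      · refine nsmul_le_nsmul_left (by positivity) (card_le_card ?_)
        intro e he
        simp only [mem_filter] at he ⊢
        exact ⟨he.1, he.2.1, he.2.2.1⟩
    · rw [← nsmul_eq_mul]
      refine (sum_le_card_nsmul _ _ (ρ * (D * ρ) ^ (h x - 1)) fun e he => ?_).trans ?_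
      · simp only [mem_filter] at he
        refine key e he.1 _ (mem_erase.2 ⟨he.2.2.1, he.2.2.2⟩) ?_
        have := (hh e he.1).2
        rw [he.2.1] at this
        exact this
      · refine nsmul_le_nsmul_left (by positivity) (card_le_card ?_)
        intro e he
        simp only [mem_filter] at he ⊢
        exact ⟨he.1, he.2.1, he.2.2.1⟩

/-- **exponential decay of the connection probability** -/
theorem decay (h0 : ∀ e, 0 ≤ p e) (h1 : ∀ e, p e ≤ 1) {ρ : ℝ} (hρ0 : 0 ≤ ρ)
    (hρ : ∀ e ∈ s, p e ≤ ρ) {D : ℕ}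
    (hDs : ∀ x, ∀ t ⊆ s, (∀ e ∈ t, src e = x ∧ tgt e ≠ x) → 2 * t.card ≤ D)
    (hDt : ∀ x, ∀ t ⊆ s, (∀ e ∈ t, tgt e = x ∧ src e ≠ x) → 2 * t.card ≤ D) (hDρ : D * ρ ≤ 1)
    {h : X → ℕ}
    (hh : ∀ e ∈ s, h (src e) ≤ h (tgt e) + 1 ∧ h (tgt e) ≤ h (src e) + 1) {x y : X}
    (hy : h y = 0) : cps src tgt s p Set.univ x y ≤ (D * ρ) ^ h x := by
  classical
  set A : Finset X := insert x (s.image src ∪ s.image tgt) with hA
  have h2 := decay_aux h0 h1 hρ0 hρ (D := D) (fun x => by
    have a1 := hDs x (s.filter (fun e => src e = x ∧ tgt e ≠ x)) (filter_subset _ _)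
      (fun e he => (mem_filter.1 he).2)
    have a2 := hDt x (s.filter (fun e => tgt e = x ∧ src e ≠ x)) (filter_subset _ _)
      (fun e he => (mem_filter.1 he).2)
    omega) hDρ hh hy A.card A rfl x (mem_insert_self _ _)
  refine le_trans ?_ h2
  unfold cps
  refine B_mono h0 h1 fun S hS => ?_
  by_cases hc : Conn src tgt Set.univ S x y
  · have h3 : Conn src tgt (A : Set X) S x y := by
      refine Relation.ReflTransGen.mono (fun u v huv => ?_) _ _ hc
      obtain ⟨_, _, e, he, h4⟩ := huv
      have hs1 : src e ∈ A := mem_insert_of_mem (mem_union_left _ (mem_image_of_mem _ (hS he)))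
      have ht1 : tgt e ∈ A := mem_insert_of_mem (mem_union_right _ (mem_image_of_mem _ (hS he)))
      rcases h4 with ⟨h5, h6⟩ | ⟨h5, h6⟩
      · exact ⟨h5 ▸ hs1, h6 ▸ ht1, e, he, Or.inl ⟨h5, h6⟩⟩
      · exact ⟨h6 ▸ ht1, h5 ▸ hs1, e, he, Or.inr ⟨h5, h6⟩⟩
    rw [if_pos h3]
    split_ifs <;> norm_num
  · rw [if_neg hc]
    split_ifs <;> norm_num

end conn

end Pool.Agent.V11262.PD
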