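import Pool.Agent.V11262.OP.Final2
import Pool.Agent.V11262.PD.Perc

/-!
# Wilson loops and central twists of clusters of links
-/

set_option autoImplicit false
set_option linter.unusedSectionVars false

noncomputable section

namespace Pool.Agent.V11262.PD

open MeasureTheory Measure Pool.Agent.V11262.OP

/-- paths: lists of steps; `(i, true)` is a step in direction `i`, `(i, false)` one against it -/
abbrev Path : Type := List (Fin 4 × Bool)

/-- the site after a step -/
def nxt (x : Site) (s : Fin 4 × Bool) : Site := if s.2 then x + uv s.1 else x - uv s.1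

/-- the product of the link variables along a path -/
def hl {G : Type} [Group G] (U : Link → G) : Site → Path → G
  | _, [] => 1
  | x, s :: γ => (if s.2 then U (x, s.1) else (U (x - uv s.1, s.1))⁻¹) * hl U (nxt x s) γ

/-- the sum of a function of the links along a path -/
def hs (s : Link → ℤ) : Site → Path → ℤ
  | _, [] => 0
  | x, t :: γ => (if t.2 then s (x, t.1) else - s (x - uv t.1, t.1)) + hs s (nxt x t) γ

/-- the configuration multiplied by powers of a central element -/
def twist {G : Type} [Group G] (z : G) (s : Link → ℤ) (U : Link → G) : Link → G :=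
  fun e => z ^ s e * U e

section

variable {G : Type} [Group G] {z : G} (hz : ∀ g : G, z * g = g * z)

include hz

lemma zcomm (n : ℤ) (g : G) : z ^ n * g = g * z ^ n :=
  (Commute.zpow_left (hz g) n).eq

lemma hl_twist (s : Link → ℤ) (U : Link → G) (γ : Path) (x : Site) :
    hl (twist z s U) x γ = z ^ hs s x γ * hl U x γ := by
  induction γ generalizing x with
  | nil => simp [hl, hs]
  | cons t γ ih =>
    rw [hl, hs, hl, ih]
    obtain ⟨i, b⟩ := t
    cases b
    · simp only [Bool.false_eq_true, if_false, twist]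
      rw [mul_inv_rev, ← zpow_neg, zpow_add]
      have h1 := zcomm hz (hs s (nxt x (i, false)) γ) (U (x - uv i, i))⁻¹
      have h2 := zcomm hz (-s (x - uv i, i)) (U (x - uv i, i))⁻¹
      calc (U (x - uv i, i))⁻¹ * z ^ (-s (x - uv i, i)) *
            (z ^ hs s (nxt x (i, false)) γ * hl U (nxt x (i, false)) γ)
          = z ^ (-s (x - uv i, i)) * ((U (x - uv i, i))⁻¹ *
            z ^ hs s (nxt x (i, false)) γ) * hl U (nxt x (i, false)) γ := by
            rw [← h2]; group
        _ = _ := by rw [← h1]; group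
    · simp only [if_true, twist]
      rw [zpow_add]
      have h1 := zcomm hz (hs s (nxt x (i, true)) γ) (U (x, i))
      calc z ^ s (x, i) * U (x, i) *
            (z ^ hs s (nxt x (i, true)) γ * hl U (nxt x (i, true)) γ)
          = z ^ s (x, i) * (U (x, i) * z ^ hs s (nxt x (i, true)) γ) *
            hl U (nxt x (i, true)) γ := by group
        _ = _ := by rw [← h1]; group

/-- the flux of a function of the links through a plaquette -/
def flux (s : Link → ℤ) (p : Plaq) : ℤ :=
  s (p.1.1, p.1.2.1) + s (p.1.1 + uv p.1.2.1, p.1.2.2) - s (p.1.1 + uv p.1.2.2, p.1.2.1) -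
    s (p.1.1, p.1.2.2)

lemma hol_twist (s : Link → ℤ) (U : Link → G) (p : Plaq) :
    hol (twist z s U) p = z ^ flux s p * hol U p := by
  obtain ⟨⟨x, i, j⟩, hij⟩ := p
  simp only [hol, twist, flux]
  change z ^ s (x, i) * U (x, i) * (z ^ s (x + uv i, j) * U (x + uv i, j)) *
    (z ^ s (x + uv j, i) * U (x + uv j, i))⁻¹ * (z ^ s (x, j) * U (x, j))⁻¹ = _ *
    (U (x, i) * U (x + uv i, j) * (U (x + uv j, i))⁻¹ * (U (x, j))⁻¹)
  have c := zcomm hz
  rw [mul_inv_rev, mul_inv_rev, ← zpow_neg, ← zpow_neg, sub_eq_add_neg, sub_eq_add_neg,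
    zpow_add, zpow_add, zpow_add]
  have h1 := c (s (x + uv i, j)) (U (x, i))
  have h2 := c (-s (x + uv j, i)) (U (x, i) * U (x + uv i, j) * (U (x + uv j, i))⁻¹)
  have h3 := c (-s (x, j)) (U (x, i) * U (x + uv i, j) * (U (x + uv j, i))⁻¹ * (U (x, j))⁻¹)
  calc z ^ s (x, i) * U (x, i) * (z ^ s (x + uv i, j) * U (x + uv i, j)) *
        ((U (x + uv j, i))⁻¹ * z ^ (-s (x + uv j, i))) * ((U (x, j))⁻¹ * z ^ (-s (x, j)))
      = z ^ s (x, i) * (U (x, i) * z ^ s (x + uv i, j)) * U (x + uv i, j) *
        (U (x + uv j, i))⁻¹ * z ^ (-s (x + uv j, i)) * (U (x, j))⁻¹ * z ^ (-s (x, j)) := by group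
    _ = z ^ s (x, i) * z ^ s (x + uv i, j) * (U (x, i) * U (x + uv i, j) *
        (U (x + uv j, i))⁻¹ * z ^ (-s (x + uv j, i))) * (U (x, j))⁻¹ * z ^ (-s (x, j)) := by
        rw [← h1]; group
    _ = z ^ s (x, i) * z ^ s (x + uv i, j) * z ^ (-s (x + uv j, i)) * (U (x, i) *
        U (x + uv i, j) * (U (x + uv j, i))⁻¹ * (U (x, j))⁻¹ * z ^ (-s (x, j))) := by
        rw [← h2]; group
    _ = _ := by rw [← h3]; group

end

section meas

variable {G : Type} [Group G] [TopologicalSpace G] [IsTopologicalGroup G] [CompactSpace G]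
  [SecondCountableTopology G] [MeasurableSpace G] [BorelSpace G] (σ : Measure G)
  [IsProbabilityMeasure σ] [σ.IsHaarMeasure]

lemma measurable_twist (z : G) (s : Link → ℤ) : Measurable (twist z s : (Link → G) → Link → G) := by
  rw [measurable_pi_iff]
  intro e
  exact (measurable_const_mul _).comp (measurable_pi_apply e)

lemma twist_map (z : G) (s : Link → ℤ) : (PP σ).map (twist z s) = PP σ := by
  unfold PP
  have h := infinitePi_map_pi (μ := fun _ : Link => σ) (f := fun e (g : G) => z ^ s e * g)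
    (fun e => measurable_const_mul _)
  refine Eq.trans h ?_
  congr 1
  funext e
  exact map_mul_left_eq_self σ _

lemma int_twist (z : G) (s : Link → ℤ) (f : (Link → G) → ℂ) (hf : Measurable f) :
    ∫ U, f (twist z s U) ∂(PP σ) = ∫ U, f U ∂(PP σ) := by
  conv_rhs => rw [← twist_map σ z s]
  rw [integral_map (measurable_twist z s).aemeasurable hf.aestronglyMeasurable]

/-- the Wilson loop variable -/
def wl {N : ℕ} (π : G →* Matrix.unitaryGroup (Fin N) ℂ) (o : Site) (γ : Path) (U : Link → G) : ℂ :=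
  Matrix.trace (π (hl U o γ) : Matrix (Fin N) (Fin N) ℂ)

lemma hl_meas (o : Site) (γ : Path) : Measurable fun U : Link → G => hl U o γ := by
  induction γ generalizing o with
  | nil => exact measurable_const
  | cons t γ ih =>
    have h : ∀ e : Link, Measurable fun U : Link → G => U e := fun e => measurable_pi_apply e
    simp only [hl]
    obtain ⟨i, b⟩ := t
    cases b
    · simp only [Bool.false_eq_true, if_false]
      exact (h _).inv.mul (ih _)
    · simp only [if_true]
      exact (h _).mul (ih _)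

lemma wl_meas {N : ℕ} {π : G →* Matrix.unitaryGroup (Fin N) ℂ} (hπ : Continuous π) (o : Site)
    (γ : Path) : Measurable (wl π o γ) := by
  have h1 : Continuous fun g : G => Matrix.trace (π g : Matrix (Fin N) (Fin N) ℂ) :=
    (continuous_subtype_val.comp hπ).matrix_trace
  exact h1.measurable.comp (hl_meas o γ)

omit [TopologicalSpace G] [IsTopologicalGroup G] [CompactSpace G]
  [SecondCountableTopology G] [MeasurableSpace G] [BorelSpace G] in
lemma wl_norm {N : ℕ} (π : G →* Matrix.unitaryGroup (Fin N) ℂ) (o : Site) (γ : Path)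
    (U : Link → G) : ‖wl π o γ U‖ ≤ N := by
  unfold wl Matrix.trace
  refine (norm_sum_le _ _).trans ?_
  refine (Finset.sum_le_card_nsmul _ _ 1 fun i _ => ?_).trans_eq ?_
  · exact entry_norm_bound_of_unitary (π (hl U o γ)).2 i i
  · simp

lemma pi_zpow {N : ℕ} (hN : 0 < N) (π : G →* Matrix.unitaryGroup (Fin N) ℂ) {z : G} {ζ : ℂ}
    (hζ : (π z : Matrix (Fin N) (Fin N) ℂ) = ζ • (1 : Matrix (Fin N) (Fin N) ℂ)) (k : ℤ) :
    (π (z ^ k) : Matrix (Fin N) (Fin N) ℂ) = ζ ^ k • (1 : Matrix (Fin N) (Fin N) ℂ) := by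
  have hnat : ∀ n : ℕ, (π (z ^ n) : Matrix (Fin N) (Fin N) ℂ) =
      ζ ^ n • (1 : Matrix (Fin N) (Fin N) ℂ) := by
    intro n
    rw [map_pow, SubmonoidClass.coe_pow, hζ, smul_pow, one_pow]
  obtain ⟨n, rfl | rfl⟩ := k.eq_nat_or_neg
  · rw [zpow_natCast, zpow_natCast]
    exact hnat n
  · have h1 : (π (z ^ (-(n : ℤ))) : Matrix (Fin N) (Fin N) ℂ) * (π (z ^ n) :
        Matrix (Fin N) (Fin N) ℂ) = 1 := by
      have h2 : π (z ^ (-(n : ℤ))) * π (z ^ n) = 1 := by
        rw [← map_mul, zpow_neg, zpow_natCast, inv_mul_cancel, map_one]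
      have h3 := congrArg Subtype.val h2
      rw [Submonoid.coe_mul, Submonoid.coe_one] at h3
      exact h3
    rw [hnat n, Matrix.mul_smul, mul_one] at h1
    have h4 : ζ ^ n ≠ 0 := by
      intro h
      rw [h, zero_smul] at h1
      have h5 := congrFun (congrFun h1 ⟨0, hN⟩) ⟨0, hN⟩
      simp at h5
    have h5 : ζ ^ (-(n : ℤ)) = (ζ ^ n)⁻¹ := by rw [zpow_neg, zpow_natCast]
    rw [h5, ← h1, smul_smul, inv_mul_cancel₀ h4, one_smul]

lemma wl_twist {N : ℕ} (hN : 0 < N) (π : G →* Matrix.unitaryGroup (Fin N) ℂ) {z : G}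
    (hz : ∀ g, z * g = g * z) {ζ : ℂ}
    (hζ : (π z : Matrix (Fin N) (Fin N) ℂ) = ζ • (1 : Matrix (Fin N) (Fin N) ℂ))
    (s : Link → ℤ) (o : Site) (γ : Path) (U : Link → G) :
    wl π o γ (twist z s U) = ζ ^ hs s o γ * wl π o γ U := by
  unfold wl
  rw [hl_twist hz, map_mul, Submonoid.coe_mul, pi_zpow hN π hζ, Matrix.smul_mul, one_mul,
    Matrix.trace_smul, smul_eq_mul]

end meas

/-! ## The clusters of the links of direction `k` -/

lemma uv_same (i : Fin 4) : uv i i = 1 := by simp [uv]

lemma uv_ne {i j : Fin 4} (h : j ≠ i) : uv i j = 0 := by simp [uv, Pi.single_eq_of_ne h]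

/-- the base point of a plaquette -/
def sr (p : Plaq) : Site := p.1.1

/-- the plaquettes which contain links of direction `k` -/
def isK (k : Fin 4) (p : Plaq) : Prop := p.1.2.1 = k ∨ p.1.2.2 = k

instance (k : Fin 4) : DecidablePred (isK k) := fun p => by unfold isK; infer_instance

/-- the two links of direction `k` of a plaquette start at `sr p` and at `tg k p` -/
def tg (k : Fin 4) (p : Plaq) : Site :=
  if p.1.2.1 = k then p.1.1 + uv p.1.2.2 else if p.1.2.2 = k then p.1.1 + uv p.1.2.1 else p.1.1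

lemma tg_k (k : Fin 4) (p : Plaq) : tg k p k = sr p k := by
  obtain ⟨⟨x, i, j⟩, hij⟩ := p
  unfold tg sr
  simp only
  split_ifs with h1 h2
  · subst h1
    rw [Pi.add_apply, uv_ne hij.ne, add_zero]
  · subst h2
    rw [Pi.add_apply, uv_ne (Ne.symm h1), add_zero]
  · rfl

/-- the cluster of the link of direction `k` at `u` -/
def Cn (k : Fin 4) (S : Finset Plaq) (u v : Site) : Prop := Conn sr (tg k) Set.univ S u v

lemma Cn_iff {k : Fin 4} {S : Finset Plaq} {u : Site} {p : Plaq} (hp : p ∈ S) :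
    Cn k S u (sr p) ↔ Cn k S u (tg k p) :=
  ⟨fun h => h.tail ⟨trivial, trivial, p, hp, Or.inl ⟨rfl, rfl⟩⟩,
    fun h => h.tail ⟨trivial, trivial, p, hp, Or.inr ⟨rfl, rfl⟩⟩⟩

lemma Cn_level {k : Fin 4} {S : Finset Plaq} {u v : Site} (h : Cn k S u v) : v k = u k := by
  induction h with
  | refl => rfl
  | tail _ hbc ih =>
    obtain ⟨_, _, p, _, h3⟩ := hbc
    have := tg_k k p
    rcases h3 with ⟨h1, h2⟩ | ⟨h1, h2⟩
    · rw [← h2, this, h1, ih]
    · rw [← h1, ← this, h2, ih]

open Classical in
/-- the indicator function of a cluster of links -/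
def sc (k : Fin 4) (S : Finset Plaq) (u : Site) (e : Link) : ℤ :=
  if e.2 = k ∧ Cn k S u e.1 then 1 else 0

lemma sc_ne {k : Fin 4} (S : Finset Plaq) (u z : Site) {i : Fin 4} (h : i ≠ k) :
    sc k S u (z, i) = 0 := if_neg fun h' => h h'.1

lemma flux_sc {k : Fin 4} {S : Finset Plaq} (u : Site) {p : Plaq} (hp : p ∈ S) :
    flux (sc k S u) p = 0 := by
  have h0 := Cn_iff (k := k) (u := u) hp
  obtain ⟨⟨x, i, j⟩, hij⟩ := p
  have hij' : i < j := hij
  unfold flux
  simp only
  by_cases h1 : i = k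
  · subst h1
    have e1 : tg i (⟨(x, i, j), hij⟩ : Plaq) = x + uv j := by simp [tg]
    rw [e1] at h0
    change Cn i S u x ↔ _ at h0
    rw [sc_ne _ _ _ hij'.ne', sc_ne _ _ _ hij'.ne']
    unfold sc
    by_cases hc : Cn i S u x
    · simp [hc, h0.1 hc]
    · have hc' : ¬ Cn i S u (x + uv j) := fun h => hc (h0.2 h)
      simp [hc, hc']
  · by_cases h2 : j = k
    · subst h2
      have e1 : tg j (⟨(x, i, j), hij⟩ : Plaq) = x + uv i := by simp [tg, h1]
      rw [e1] at h0
      change Cn j S u x ↔ _ at h0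
      rw [sc_ne _ _ _ h1, sc_ne _ _ _ h1]
      unfold sc
      by_cases hc : Cn j S u x
      · simp [hc, h0.1 hc]
      · have hc' : ¬ Cn j S u (x + uv i) := fun h => hc (h0.2 h)
        simp [hc, hc']
    · rw [sc_ne _ _ _ h1, sc_ne _ _ _ h1, sc_ne _ _ _ h2, sc_ne _ _ _ h2]
      ring

/-- the end of a path -/
def en : Site → Path → Site
  | x, [] => x
  | x, s :: γ => en (nxt x s) γ

lemma hs_append (s : Link → ℤ) (γ γ' : Path) (x : Site) :
    hs s x (γ ++ γ') = hs s x γ + hs s (en x γ) γ' := by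
  induction γ generalizing x with
  | nil => simp [hs, en]
  | cons t γ ih =>
    rw [List.cons_append, hs, hs, ih, en]
    ring

lemma en_true (k : Fin 4) (n : ℕ) (x : Site) :
    en x (List.replicate n (k, true)) = x + (n : ℤ) • uv k := by
  induction n generalizing x with
  | zero => simp [en]
  | succ n ih =>
    rw [List.replicate_succ, en, ih]
    simp only [nxt, if_true]
    push_cast
    rw [add_smul, one_smul]
    abel

lemma en_false (k : Fin 4) (n : ℕ) (x : Site) :
    en x (List.replicate n (k, false)) = x - (n : ℤ) • uv k := by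
  induction n generalizing x with
  | zero => simp [en]
  | succ n ih =>
    rw [List.replicate_succ, en, ih]
    simp only [nxt, Bool.false_eq_true, if_false]
    push_cast
    rw [add_smul, one_smul]
    abel

lemma hs_other {s : Link → ℤ} {j : Fin 4} (h : ∀ z, s (z, j) = 0) (b : Bool) (n : ℕ) (x : Site) :
    hs s x (List.replicate n (j, b)) = 0 := by
  induction n generalizing x with
  | zero => rfl
  | succ n ih =>
    rw [List.replicate_succ, hs, ih]
    cases b <;> simp [h]

lemma hs_up (s : Link → ℤ) (k : Fin 4) (n : ℕ) (x : Site) :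
    hs s x (List.replicate n (k, true)) = ∑ t ∈ Finset.range n, s (x + (t : ℤ) • uv k, k) := by
  induction n generalizing x with
  | zero => rfl
  | succ n ih =>
    rw [List.replicate_succ, hs, ih, Finset.sum_range_succ']
    simp only [nxt, if_true]
    rw [add_comm]
    congr 1
    · refine Finset.sum_congr rfl fun t _ => ?_
      congr 2
      push_cast
      rw [add_smul, one_smul]
      abel
    · simp

lemma hs_down (s : Link → ℤ) (k : Fin 4) (n : ℕ) (x : Site) :
    hs s (x + (n : ℤ) • uv k) (List.replicate n (k, false)) =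
      - ∑ t ∈ Finset.range n, s (x + (t : ℤ) • uv k, k) := by
  induction n generalizing x with
  | zero => rfl
  | succ n ih =>
    rw [List.replicate_succ, hs, Finset.sum_range_succ]
    simp only [nxt, Bool.false_eq_true, if_false]
    have h1 : x + ((n + 1 : ℕ) : ℤ) • uv k - uv k = x + (n : ℤ) • uv k := by
      push_cast
      rw [add_smul, one_smul]
      abel
    rw [h1, ih]
    ring

/-- the rectangular path with `R` steps in direction `j`, `T` steps in direction `k`, and back -/
def rct (j k : Fin 4) (R T : ℕ) : Path :=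
  List.replicate R (j, true) ++ (List.replicate T (k, true) ++
    (List.replicate R (j, false) ++ List.replicate T (k, false)))

lemma hs_rct {s : Link → ℤ} {j k : Fin 4} (h : ∀ z, s (z, j) = 0) (R T : ℕ) (x : Site) :
    hs s x (rct j k R T) =
      ∑ t ∈ Finset.range T, s (x + (R : ℤ) • uv j + (t : ℤ) • uv k, k) -
        ∑ t ∈ Finset.range T, s (x + (t : ℤ) • uv k, k) := by
  unfold rct
  rw [hs_append, hs_append, hs_append, hs_other h, hs_other h, en_true, en_true, en_false, hs_up]
  have h1 : x + (R : ℤ) • uv j + (T : ℤ) • uv k - (R : ℤ) • uv j = x + (T : ℤ) • uv k := by abel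
  rw [h1, hs_down]
  ring

lemma single_lev {j k : Fin 4} (hjk : j ≠ k) (R : ℕ) (x : Site) (t : ℤ) :
    (x + (R : ℤ) • uv j + t • uv k) k = x k + t := by
  rw [Pi.add_apply, Pi.add_apply, Pi.smul_apply, Pi.smul_apply, uv_same, uv_ne hjk.symm]
  simp

lemma single_lev0 (k : Fin 4) (x : Site) (t : ℤ) : (x + t • uv k) k = x k + t := by
  rw [Pi.add_apply, Pi.smul_apply, uv_same]
  simp

/-- the twist of a cluster changes the Wilson loop if the cluster contains only one of the two
links of the loop -/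
lemma hs_sc {j k : Fin 4} (hjk : j ≠ k) {S : Finset Plaq} {x : Site} {R T t₀ : ℕ} (ht : t₀ < T)
    (h : ¬ Cn k S (x + (t₀ : ℤ) • uv k) (x + (R : ℤ) • uv j + (t₀ : ℤ) • uv k)) :
    hs (sc k S (x + (t₀ : ℤ) • uv k)) x (rct j k R T) = -1 := by
  rw [hs_rct (fun z => sc_ne _ _ _ hjk)]
  have h1 : ∑ t ∈ Finset.range T, sc k S (x + (t₀ : ℤ) • uv k)
      (x + (R : ℤ) • uv j + (t : ℤ) • uv k, k) = 0 := by
    refine Finset.sum_eq_zero fun t _ => if_neg ?_
    rintro ⟨_, h2⟩
    have h3 := Cn_level h2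
    simp only at h3 h2
    rw [single_lev hjk, single_lev0] at h3
    have h4 : t = t₀ := by omega
    subst h4
    exact h h2
  have h2 : ∑ t ∈ Finset.range T, sc k S (x + (t₀ : ℤ) • uv k) (x + (t : ℤ) • uv k, k) = 1 := by
    rw [Finset.sum_eq_single t₀]
    · exact if_pos ⟨rfl, Relation.ReflTransGen.refl⟩
    · intro t _ hne
      refine if_neg ?_
      rintro ⟨_, h2⟩
      have h3 := Cn_level h2
      simp only at h3
      rw [single_lev0, single_lev0] at h3
      exact hne (by omega)
    · intro h'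
      exact absurd (Finset.mem_range.2 ht) h'
  rw [h1, h2]
  ring

lemma hs_down' (s : Link → ℤ) (k : Fin 4) (n : ℕ) (x y : Site) (h : y = x + (n : ℤ) • uv k) :
    hs s y (List.replicate n (k, false)) =
      - ∑ t ∈ Finset.range n, s (x + (t : ℤ) • uv k, k) := by
  rw [h]
  exact hs_down s k n x

lemma hs_rct' {s : Link → ℤ} {j k : Fin 4} (h : ∀ z, s (z, k) = 0) (R T : ℕ) (x : Site) :
    hs s x (rct j k R T) =
      ∑ t ∈ Finset.range R, s (x + (t : ℤ) • uv j, j) -
        ∑ t ∈ Finset.range R, s (x + (T : ℤ) • uv k + (t : ℤ) • uv j, j) := by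
  unfold rct
  rw [hs_append, hs_append, hs_append, hs_other h, hs_other h, en_true, en_true, hs_up,
    hs_down' s j R (x + (T : ℤ) • uv k) (x + (R : ℤ) • uv j + (T : ℤ) • uv k) (by abel)]
  ring

/-- the same for the links of the direction `j` -/
lemma hs_sc' {j k : Fin 4} (hjk : j ≠ k) {S : Finset Plaq} {x : Site} {R T t₀ : ℕ} (ht : t₀ < R)
    (h : ¬ Cn j S (x + (t₀ : ℤ) • uv j) (x + (T : ℤ) • uv k + (t₀ : ℤ) • uv j)) :
    hs (sc j S (x + (t₀ : ℤ) • uv j)) x (rct j k R T) = 1 := by
  rw [hs_rct' (fun z => sc_ne _ _ _ hjk.symm)]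
  have h1 : ∑ t ∈ Finset.range R, sc j S (x + (t₀ : ℤ) • uv j)
      (x + (T : ℤ) • uv k + (t : ℤ) • uv j, j) = 0 := by
    refine Finset.sum_eq_zero fun t _ => if_neg ?_
    rintro ⟨_, h2⟩
    have h3 := Cn_level h2
    simp only at h3 h2
    rw [single_lev hjk.symm, single_lev0] at h3
    have h4 : t = t₀ := by omega
    subst h4
    exact h h2
  have h2 : ∑ t ∈ Finset.range R, sc j S (x + (t₀ : ℤ) • uv j) (x + (t : ℤ) • uv j, j) = 1 := by
    rw [Finset.sum_eq_single t₀]
    · exact if_pos ⟨rfl, Relation.ReflTransGen.refl⟩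
    · intro t _ hne
      refine if_neg ?_
      rintro ⟨_, h2⟩
      have h3 := Cn_level h2
      simp only at h3
      rw [single_lev0, single_lev0] at h3
      exact hne (by omega)
    · intro h'
      exact absurd (Finset.mem_range.2 ht) h'
  rw [h1, h2]
  ring

end Pool.Agent.V11262.PD
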