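import Pool.Agent.V11262.PD.Rand

/-!
# Random couplings: the quenched area law
-/

set_option autoImplicit false
set_option linter.unusedSectionVars false

noncomputable section

namespace Pool.Agent.V11262.PD

open MeasureTheory ProbabilityTheory Pool.Agent.V11262.OP Pool.Agent.H678R3.Perc

lemma B_congr_p {E : Type} [DecidableEq E] {s : Finset E} {p q : E → ℝ} (h : ∀ e ∈ s, p e = q e)
    (f : Finset E → ℝ) : B s p f = B s q f := by
  unfold B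
  refine Finset.sum_congr rfl fun S hS => ?_
  rw [Finset.mem_powerset] at hS
  rw [Finset.prod_congr rfl fun e he => h e (hS he),
    Finset.prod_congr rfl fun e (he : e ∈ s \ S) => by rw [h e (Finset.mem_sdiff.1 he).1]]

/-- the opening probability as a function of the coupling -/
def ph (β₀ ρ₀ : ℝ) (b : ℝ) : ℝ := if |b| ≤ β₀ then ρ₀ else 1

lemma ph_meas (β₀ ρ₀ : ℝ) : Measurable (ph β₀ ρ₀) := by
  unfold ph
  exact Measurable.ite (measurableSet_le measurable_norm measurable_const) measurable_const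
    measurable_const

lemma ph_nonneg {β₀ ρ₀ : ℝ} (h : 0 ≤ ρ₀) (b : ℝ) : 0 ≤ ph β₀ ρ₀ b := by
  unfold ph; split_ifs <;> linarith

lemma ph_le_one {β₀ ρ₀ : ℝ} (h : ρ₀ ≤ 1) (b : ℝ) : ph β₀ ρ₀ b ≤ 1 := by
  unfold ph; split_ifs <;> linarith

section

variable {Ω : Type} [MeasurableSpace Ω] {P : Measure Ω} [IsProbabilityMeasure P]

lemma ph_mean {β₀ ρ₀ δ : ℝ} (h0 : 0 ≤ ρ₀) (h1 : ρ₀ ≤ 1) {b : Ω → ℝ} (hb : Measurable b)
    (ht : P.real {ω | β₀ < |b ω|} ≤ δ) : ∫ ω, ph β₀ ρ₀ (b ω) ∂P ≤ ρ₀ + (1 - ρ₀) * δ := by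
  have hs : MeasurableSet {ω | β₀ < |b ω|} := measurableSet_lt measurable_const hb.norm
  have e1 : ∀ ω, ph β₀ ρ₀ (b ω) = ρ₀ + (1 - ρ₀) * ({ω | β₀ < |b ω|}.indicator 1 ω) := by
    intro ω
    unfold ph
    by_cases h : |b ω| ≤ β₀
    · rw [if_pos h, Set.indicator_of_notMem (by simpa using h)]
      ring
    · rw [if_neg h, Set.indicator_of_mem (by simpa using h)]
      simp
  simp only [e1]
  have hi : Integrable ({ω | β₀ < |b ω|}.indicator (1 : Ω → ℝ)) P :=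
    (integrable_const (1 : ℝ)).indicator hs
  rw [integral_add (integrable_const _) (hi.const_mul _), integral_const_mul,
    integral_indicator_one hs]
  simp only [integral_const, probReal_univ, one_smul]
  have := mul_le_mul_of_nonneg_left ht (by linarith : 0 ≤ 1 - ρ₀)
  linarith

variable {k : Fin 4} {β : Plaq → Ω → ℝ} {β₀ ρ₀ δ : ℝ}

/-- the random opening probabilities -/
def rr (k : Fin 4) (β : Plaq → Ω → ℝ) (β₀ ρ₀ : ℝ) (ω : Ω) (p : Plaq) : ℝ :=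
  if isK k p then ph β₀ ρ₀ (β p ω) else 1

lemma rr_nonneg (h0 : 0 ≤ ρ₀) (ω : Ω) (p : Plaq) : 0 ≤ rr k β β₀ ρ₀ ω p := by
  unfold rr
  split_ifs
  · exact ph_nonneg h0 _
  · exact zero_le_one

lemma rr_le_one (h1 : ρ₀ ≤ 1) (ω : Ω) (p : Plaq) : rr k β β₀ ρ₀ ω p ≤ 1 := by
  unfold rr
  split_ifs
  · exact ph_le_one h1 _
  · exact le_rfl

open Classical in
/-- the connection probability in the random medium -/
def XX (k : Fin 4) (β : Plaq → Ω → ℝ) (β₀ ρ₀ : ℝ) (j : Fin 4) (R T : ℕ) (x : Site)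
    (Λ : Finset Plaq) (ω : Ω) : ℝ :=
  B (Λ.filter (isK k)) (fun p => ph β₀ ρ₀ (β p ω)) (fun S => if Ev j k R T x S then 1 else 0)

open Classical in
lemma B_le_XX (h0 : 0 ≤ ρ₀) (h1 : ρ₀ ≤ 1) (j : Fin 4) (R T : ℕ) (x : Site) (Λ : Finset Plaq)
    (ω : Ω) : B Λ (rr k β β₀ ρ₀ ω) (fun S => if Ev j k R T x S then 1 else 0) ≤
      XX k β β₀ ρ₀ j R T x Λ ω := by
  refine (B_filter (rr_nonneg h0 ω) (rr_le_one h1 ω) Λ).trans_eq ?_
  unfold XX
  refine B_congr_p (fun p hp => ?_) _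
  unfold rr
  rw [if_pos (Finset.mem_filter.1 hp).2]

lemma XX_nonneg (h0 : 0 ≤ ρ₀) (h1 : ρ₀ ≤ 1) (j : Fin 4) (R T : ℕ) (x : Site) (Λ : Finset Plaq)
    (ω : Ω) : 0 ≤ XX k β β₀ ρ₀ j R T x Λ ω := by
  classical
  exact B_nonneg (fun p => ph_nonneg h0 _) (fun p => ph_le_one h1 _)
    fun S _ => by split_ifs <;> norm_num

lemma XX_le_one (h0 : 0 ≤ ρ₀) (h1 : ρ₀ ≤ 1) (j : Fin 4) (R T : ℕ) (x : Site) (Λ : Finset Plaq)
    (ω : Ω) : XX k β β₀ ρ₀ j R T x Λ ω ≤ 1 := by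
  classical
  refine (B_mono (fun p => ph_nonneg h0 _) (fun p => ph_le_one h1 _) (g := fun _ => 1)
    fun S _ => ?_).trans_eq (B_one _ _)
  split_ifs <;> norm_num

lemma XX_mono (h0 : 0 ≤ ρ₀) (h1 : ρ₀ ≤ 1) (j : Fin 4) (R T : ℕ) (x : Site) {Λ Λ' : Finset Plaq}
    (h : Λ ⊆ Λ') (ω : Ω) : XX k β β₀ ρ₀ j R T x Λ ω ≤ XX k β β₀ ρ₀ j R T x Λ' ω := by
  classical
  refine B_subset (fun p => ph_nonneg h0 _) (fun p => ph_le_one h1 _)
    (Finset.filter_subset_filter _ h) ?_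
  intro S S' hSS
  by_cases hS : Ev j k R T x S
  · rw [if_pos hS, if_pos (hS.mono hSS)]
  · rw [if_neg hS]
    split_ifs <;> norm_num

lemma XX_meas (hβm : ∀ p, isK k p → Measurable (β p)) (j : Fin 4) (R T : ℕ) (x : Site)
    (Λ : Finset Plaq) : Measurable (XX k β β₀ ρ₀ j R T x Λ) := by
  classical
  unfold XX B
  refine Finset.measurable_sum _ fun S hS => ?_
  rw [Finset.mem_powerset] at hS
  have hm : ∀ p ∈ Λ.filter (isK k), Measurable fun ω => ph β₀ ρ₀ (β p ω) := fun p hp =>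
    (ph_meas _ _).comp (hβm p (Finset.mem_filter.1 hp).2)
  refine Measurable.mul_const ?_ _
  refine (Finset.measurable_prod _ fun p hp => hm p (hS hp)).mul
    (Finset.measurable_prod _ fun p hp => ?_)
  exact measurable_const.sub (hm p (Finset.mem_sdiff.1 hp).1)

/-- the mean -/
lemma XX_mean (h0 : 0 ≤ ρ₀) (h1 : ρ₀ ≤ 1) (hβm : ∀ p, isK k p → Measurable (β p))
    (hβi : iIndepFun (fun p : {p : Plaq // isK k p} => β p.1) P)
    (ht : ∀ p, isK k p → P.real {ω | β₀ < |β p ω|} ≤ δ) (hδ : 0 ≤ δ)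
    (hρ : 6 * (ρ₀ + (1 - ρ₀) * δ) ≤ 1) {j : Fin 4} (hjk : j ≠ k) (R T : ℕ) (x : Site)
    (Λ : Finset Plaq) :
    ∫ ω, XX k β β₀ ρ₀ j R T x Λ ω ∂P ≤ (6 * (ρ₀ + (1 - ρ₀) * δ)) ^ (R * T) := by
  classical
  unfold XX
  rw [mean_B hβm hβi (ph_meas β₀ ρ₀) (ph_nonneg h0) (ph_le_one h1) (Λ.filter (isK k))
    (fun p hp => (Finset.mem_filter.1 hp).2)]
  set ρ := ρ₀ + (1 - ρ₀) * δ with hρd
  have hρ0 : 0 ≤ ρ := add_nonneg h0 (mul_nonneg (by linarith) hδ)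
  set q : Plaq → ℝ := fun p => if isK k p then ∫ ω, ph β₀ ρ₀ (β p ω) ∂P else 1 with hq
  have e1 : B (Λ.filter (isK k)) (fun p => ∫ ω, ph β₀ ρ₀ (β p ω) ∂P)
      (fun S => if Ev j k R T x S then 1 else 0) =
      B (Λ.filter (isK k)) q (fun S => if Ev j k R T x S then 1 else 0) := by
    refine B_congr_p (fun p hp => ?_) _
    simp only [hq]
    rw [if_pos (Finset.mem_filter.1 hp).2]
  rw [e1]
  have hq0 : ∀ p, 0 ≤ q p := by
    intro p
    simp only [hq]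
    split_ifs
    · exact integral_nonneg fun ω => ph_nonneg h0 _
    · exact zero_le_one
  have hq1 : ∀ p, q p ≤ 1 := by
    intro p
    simp only [hq]
    split_ifs with h
    · refine (integral_mono_of_nonneg (Filter.Eventually.of_forall fun ω => ph_nonneg h0 _)
        (integrable_const (1 : ℝ)) (Filter.Eventually.of_forall fun ω => ph_le_one h1 _)).trans ?_
      simp
    · exact le_rfl
  have h2 := decay_ev hq0 hq1 hρ0 hρ (Λ.filter (isK k)) hjk (R := R) (T := T) (x := x)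
    (Finset.range T) (fun t ht => Finset.mem_range.1 ht) (by
      intro t _ p _ hp _
      simp only [hq]
      rw [if_pos hp]
      exact ph_mean h0 h1 (hβm p hp) (ht p hp))
  rwa [Finset.card_range] at h2

/-- the probability that the bound fails in some region -/
lemma tail (h0 : 0 ≤ ρ₀) (h1 : ρ₀ ≤ 1) (hβm : ∀ p, isK k p → Measurable (β p))
    (hβi : iIndepFun (fun p : {p : Plaq // isK k p} => β p.1) P)
    (ht : ∀ p, isK k p → P.real {ω | β₀ < |β p ω|} ≤ δ) (hδ : 0 ≤ δ)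
    (hρ : 6 * (ρ₀ + (1 - ρ₀) * δ) ≤ 1) {j : Fin 4} (hjk : j ≠ k) (R T : ℕ) (x : Site)
    {c : ℝ} (hc : 0 < c) :
    P {ω | ∃ Λ, c < XX k β β₀ ρ₀ j R T x Λ ω} ≤
      ENNReal.ofReal ((6 * (ρ₀ + (1 - ρ₀) * δ)) ^ (R * T) / c) := by
  have e1 : {ω | ∃ Λ, c < XX k β β₀ ρ₀ j R T x Λ ω} =
      ⋃ Λ : Finset Plaq, {ω | c < XX k β β₀ ρ₀ j R T x Λ ω} := by
    ext ω
    simp
  have hdir : Directed (· ⊆ ·) fun Λ : Finset Plaq => {ω | c < XX k β β₀ ρ₀ j R T x Λ ω} := by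
    classical
    intro Λ Λ'
    refine ⟨Λ ∪ Λ', ?_, ?_⟩
    · intro ω hω
      exact lt_of_lt_of_le hω (XX_mono h0 h1 j R T x Finset.subset_union_left ω)
    · intro ω hω
      exact lt_of_lt_of_le hω (XX_mono h0 h1 j R T x Finset.subset_union_right ω)
  rw [e1, hdir.measure_iUnion]
  refine iSup_le fun Λ => ?_
  have hi : Integrable (XX k β β₀ ρ₀ j R T x Λ) P :=
    Integrable.of_bound (XX_meas hβm j R T x Λ).aestronglyMeasurable 1
      (Filter.Eventually.of_forall fun ω => by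
        rw [Real.norm_eq_abs, abs_of_nonneg (XX_nonneg h0 h1 j R T x Λ ω)]
        exact XX_le_one h0 h1 j R T x Λ ω)
  have h2 := mul_meas_ge_le_integral_of_nonneg
    (Filter.Eventually.of_forall fun ω => XX_nonneg h0 h1 j R T x Λ ω) hi c
  have h3 := h2.trans (XX_mean h0 h1 hβm hβi ht hδ hρ hjk R T x Λ)
  have h4 : P.real {ω | c ≤ XX k β β₀ ρ₀ j R T x Λ ω} ≤
      (6 * (ρ₀ + (1 - ρ₀) * δ)) ^ (R * T) / c := by
    rw [le_div_iff₀ hc, mul_comm]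
    exact h3
  calc P {ω | c < XX k β β₀ ρ₀ j R T x Λ ω} ≤ P {ω | c ≤ XX k β β₀ ρ₀ j R T x Λ ω} :=
        measure_mono fun ω (hω : c < XX k β β₀ ρ₀ j R T x Λ ω) => hω.le
    _ = ENNReal.ofReal (P.real {ω | c ≤ XX k β β₀ ρ₀ j R T x Λ ω}) := by
        rw [ofReal_measureReal]
    _ ≤ _ := ENNReal.ofReal_le_ofReal h4

/-- **Borel-Cantelli.** -/
theorem quen (h0 : 0 ≤ ρ₀) (h1 : ρ₀ ≤ 1) (hβm : ∀ p, isK k p → Measurable (β p))
    (hβi : iIndepFun (fun p : {p : Plaq // isK k p} => β p.1) P)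
    (ht : ∀ p, isK k p → P.real {ω | β₀ < |β p ω|} ≤ δ) (hδ : 0 ≤ δ) {m : ℝ} (hm : 0 ≤ m)
    (hρ : 6 * (ρ₀ + (1 - ρ₀) * δ) < Real.exp (-m)) :
    ∀ᵐ ω ∂P, ∀ x : Site, ∃ C : ℝ, 1 ≤ C ∧ ∀ j, j ≠ k → ∀ (R T : ℕ) (Λ : Finset Plaq),
      XX k β β₀ ρ₀ j R T x Λ ω ≤ C * Real.exp (-(m * (R * T))) := by
  rw [ae_all_iff]
  intro x
  set ρ := ρ₀ + (1 - ρ₀) * δ with hρd
  have hρ0 : 0 ≤ ρ := add_nonneg h0 (mul_nonneg (by linarith) hδ)
  have hem : Real.exp (-m) ≤ 1 := Real.exp_le_one_iff.2 (by linarith)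
  have hρ1 : 6 * ρ ≤ 1 := hρ.le.trans hem
  set θ : ℝ := 6 * ρ * Real.exp m with hθ
  have hθ0 : 0 ≤ θ := by positivity
  have hθ1 : θ < 1 := by
    have h2 : Real.exp (-m) * Real.exp m = 1 := by rw [← Real.exp_add]; simp
    calc θ < Real.exp (-m) * Real.exp m := mul_lt_mul_of_pos_right hρ (Real.exp_pos m)
      _ = 1 := h2
  set s : Fin 4 × ℕ × ℕ → Set Ω := fun i => if i.1 = k then ∅ else
    {ω | ∃ Λ, Real.exp (-(m * ((i.2.1 + 1 : ℕ) * (i.2.2 + 1 : ℕ)))) <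
      XX k β β₀ ρ₀ i.1 (i.2.1 + 1) (i.2.2 + 1) x Λ ω} with hs
  have hP : ∀ i, P (s i) ≤ ENNReal.ofReal (θ ^ i.2.1 * θ ^ i.2.2) := by
    rintro ⟨j, a, b⟩
    simp only [hs]
    split_ifs with hj
    · simp
    · refine (tail h0 h1 hβm hβi ht hδ hρ1 hj (a + 1) (b + 1) x (Real.exp_pos _)).trans ?_
      refine ENNReal.ofReal_le_ofReal ?_
      rw [← hρd]
      have e1 : (6 * ρ) ^ ((a + 1) * (b + 1)) / Real.exp (-(m * ((a + 1 : ℕ) * (b + 1 : ℕ)))) =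
          θ ^ ((a + 1) * (b + 1)) := by
        rw [hθ, mul_pow (6 * ρ) (Real.exp m), Real.exp_neg, div_inv_eq_mul, ← Real.exp_nat_mul]
        congr 2
        push_cast
        ring
      rw [e1, ← pow_add]
      refine pow_le_pow_of_le_one hθ0 hθ1.le ?_
      nlinarith
  have hsum : ∑' i, P (s i) ≠ ⊤ := by
    have h2 : Summable fun i : Fin 4 × ℕ × ℕ => θ ^ i.2.1 * θ ^ i.2.2 := by
      have g1 : Summable fun a : ℕ => θ ^ a := summable_geometric_of_lt_one hθ0 hθ1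
      have g2 : Summable fun i : ℕ × ℕ => θ ^ i.1 * θ ^ i.2 :=
        g1.mul_of_nonneg g1 (fun a => by positivity) (fun a => by positivity)
      have g3 : Summable fun _ : Fin 4 => (1 : ℝ) := summable_of_hasFiniteSupport (Set.toFinite _)
      have g4 := g3.mul_of_nonneg g2 (fun _ => zero_le_one) (fun i => by positivity)
      simpa using g4
    refine ne_top_of_le_ne_top ?_ (ENNReal.tsum_le_tsum hP)
    exact h2.tsum_ofReal_ne_top
  filter_upwards [ae_finite_setOfPred_mem hsum] with ω hω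
  set F : Finset (Fin 4 × ℕ × ℕ) := hω.toFinset with hF
  refine ⟨1 + ∑ i ∈ F, Real.exp (m * ((i.2.1 + 1 : ℕ) * (i.2.2 + 1 : ℕ))), ?_, ?_⟩
  · have : 0 ≤ ∑ i ∈ F, Real.exp (m * ((i.2.1 + 1 : ℕ) * (i.2.2 + 1 : ℕ))) :=
      Finset.sum_nonneg fun i _ => (Real.exp_pos _).le
    linarith
  intro j hj R T Λ
  have hS0 : 0 ≤ ∑ i ∈ F, Real.exp (m * ((i.2.1 + 1 : ℕ) * (i.2.2 + 1 : ℕ))) :=
    Finset.sum_nonneg fun i _ => (Real.exp_pos _).le
  have hX1 := XX_le_one (k := k) (β := β) (β₀ := β₀) h0 h1 j R T x Λ ω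
  rcases Nat.eq_zero_or_pos R with rfl | hR
  · refine hX1.trans ?_
    simp only [Nat.cast_zero, zero_mul, mul_zero, neg_zero, Real.exp_zero, mul_one]
    linarith
  rcases Nat.eq_zero_or_pos T with rfl | hT
  · refine hX1.trans ?_
    simp only [Nat.cast_zero, mul_zero, neg_zero, Real.exp_zero, mul_one]
    linarith
  obtain ⟨a, rfl⟩ : ∃ a, R = a + 1 := ⟨R - 1, by omega⟩
  obtain ⟨b, rfl⟩ : ∃ b, T = b + 1 := ⟨T - 1, by omega⟩
  by_cases hmem : (j, a, b) ∈ F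
  · have h3 : Real.exp (m * ((a + 1 : ℕ) * (b + 1 : ℕ))) ≤
        ∑ i ∈ F, Real.exp (m * ((i.2.1 + 1 : ℕ) * (i.2.2 + 1 : ℕ))) :=
      Finset.single_le_sum (f := fun i : Fin 4 × ℕ × ℕ =>
        Real.exp (m * ((i.2.1 + 1 : ℕ) * (i.2.2 + 1 : ℕ)))) (fun i _ => (Real.exp_pos _).le) hmem
    refine hX1.trans ?_
    have h4 : Real.exp (m * ((a + 1 : ℕ) * (b + 1 : ℕ))) *
        Real.exp (-(m * ((a + 1 : ℕ) * (b + 1 : ℕ)))) = 1 := by
      rw [← Real.exp_add]; simp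
    rw [← h4]
    exact mul_le_mul_of_nonneg_right (by linarith) (Real.exp_pos _).le
  · have h3 : ω ∉ s (j, a, b) := by
      intro h
      exact hmem (by rw [hF, Set.Finite.mem_toFinset]; exact h)
    simp only [hs, if_neg hj] at h3
    have h4 : XX k β β₀ ρ₀ j (a + 1) (b + 1) x Λ ω ≤
        Real.exp (-(m * ((a + 1 : ℕ) * (b + 1 : ℕ)))) := by
      by_contra hcon
      push Not at hcon
      exact h3 ⟨Λ, hcon⟩
    refine h4.trans ?_
    refine le_mul_of_one_le_left (Real.exp_pos _).le ?_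
    linarith

end

end Pool.Agent.V11262.PD
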