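import Pool.Agent.V11262.PD.Dec

/-!
# Random couplings: the mean of the connection probability, and a Borel-Cantelli argument
-/

set_option autoImplicit false
set_option linter.unusedSectionVars false

noncomputable section

namespace Pool.Agent.V11262.PD

open MeasureTheory ProbabilityTheory Pool.Agent.V11262.OP Pool.Agent.H678R3.Perc

section general

variable {E : Type} [DecidableEq E]

lemma B_const (s : Finset E) (p : E → ℝ) (c : ℝ) : B s p (fun _ => c) = c := by
  have h := B_const_mul s p c (fun _ => 1)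
  rw [B_one] at h
  calc B s p (fun _ => c) = B s p (fun _ => c * 1) := by rw [mul_one]
    _ = c * 1 := h
    _ = c := mul_one c

lemma B_subset {p : E → ℝ} (h0 : ∀ e, 0 ≤ p e) (h1 : ∀ e, p e ≤ 1) {s t : Finset E} (hst : s ⊆ t)
    {f : Finset E → ℝ} (hf : ∀ S S', S ⊆ S' → f S ≤ f S') : B s p f ≤ B t p f := by
  have ht : t = s ∪ (t \ s) := (Finset.union_sdiff_of_subset hst).symm
  rw [ht, B_union Finset.disjoint_sdiff]
  refine B_mono h0 h1 fun S _ => ?_
  have h2 : f S = B (t \ s) p (fun _ => f S) := (B_const _ _ _).symm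
  rw [h2]
  exact B_mono h0 h1 fun S' _ => hf _ _ Finset.subset_union_left

lemma B_ones {p : E → ℝ} {s : Finset E} (h : ∀ e ∈ s, p e = 1) (f : Finset E → ℝ) :
    B s p f = f s := by
  induction s using Finset.induction_on generalizing f with
  | empty => exact B_empty p f
  | insert a s ha ih =>
    rw [B_insert ha, h a (Finset.mem_insert_self _ _), one_mul, sub_self, zero_mul, add_zero,
      ih (fun e he => h e (Finset.mem_insert_of_mem he))]

end general

lemma Cn_filter {k : Fin 4} {S : Finset Plaq} {u v : Site} (h : Cn k S u v) :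
    Cn k (S.filter (isK k)) u v := by
  induction h with
  | refl => exact Relation.ReflTransGen.refl
  | @tail b c hb hbc ih =>
    obtain ⟨_, _, p, hp, h3⟩ := hbc
    by_cases hk : isK k p
    · exact ih.tail ⟨trivial, trivial, p, Finset.mem_filter.2 ⟨hp, hk⟩, h3⟩
    · have h4 := tg_eq' hk
      have h5 : b = c := by
        rcases h3 with ⟨h1, h2⟩ | ⟨h1, h2⟩
        · rw [← h1, ← h2, h4]
        · rw [← h1, ← h2, h4]
      rw [← h5]
      exact ih

open Classical in
/-- only the plaquettes with links of direction `k` matter -/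
lemma B_filter {r : Plaq → ℝ} (hr0 : ∀ p, 0 ≤ r p) (hr1 : ∀ p, r p ≤ 1) (Λ : Finset Plaq)
    {j k : Fin 4} {R T : ℕ} {x : Site} :
    B Λ r (fun S => if Ev j k R T x S then 1 else 0) ≤
      B (Λ.filter (isK k)) r (fun S => if Ev j k R T x S then 1 else 0) := by
  have ht : Λ = Λ.filter (isK k) ∪ Λ.filter (fun p => ¬ isK k p) :=
    (Finset.filter_union_filter_not_eq _ _).symm
  conv_lhs => rw [ht]
  rw [B_union (Finset.disjoint_filter_filter_not _ _ _)]
  refine B_mono hr0 hr1 fun S hS => ?_
  have h2 : B (Λ.filter (fun p => ¬ isK k p)) r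
      (fun S' => if Ev j k R T x (S ∪ S') then (1 : ℝ) else 0) ≤
      B (Λ.filter (fun p => ¬ isK k p)) r (fun _ => if Ev j k R T x S then (1 : ℝ) else 0) := by
    refine B_mono hr0 hr1 fun S' hS' => ?_
    by_cases h : Ev j k R T x (S ∪ S')
    · have h3 : Ev j k R T x S := by
        intro t ht
        have h4 := Cn_filter (h t ht)
        refine h4.mono ?_
        intro p hp
        rw [Finset.mem_filter, Finset.mem_union] at hp
        rcases hp.1 with h5 | h5
        · exact h5
        · exact absurd hp.2 (Finset.mem_filter.1 (hS' h5)).2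
      rw [if_pos h, if_pos h3]
    · rw [if_neg h]
      split_ifs <;> norm_num
  exact h2.trans_eq (B_const _ _ _)

section random

variable {Ω : Type} [MeasurableSpace Ω] {P : Measure Ω} [IsProbabilityMeasure P]

/-- the mean over independent random opening probabilities -/
lemma mean_B {k : Fin 4} {β : Plaq → Ω → ℝ} (hβm : ∀ p, isK k p → Measurable (β p))
    (hβi : iIndepFun (fun p : {p : Plaq // isK k p} => β p.1) P) {φ : ℝ → ℝ} (hφ : Measurable φ)
    (hφ0 : ∀ b, 0 ≤ φ b) (hφ1 : ∀ b, φ b ≤ 1) (s : Finset Plaq) (hs : ∀ p ∈ s, isK k p)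
    (f : Finset Plaq → ℝ) :
    ∫ ω, B s (fun p => φ (β p ω)) f ∂P = B s (fun p => ∫ ω, φ (β p ω) ∂P) f := by
  classical
  have hm : ∀ p ∈ s, Measurable fun ω => φ (β p ω) := fun p hp => hφ.comp (hβm p (hs p hp))
  have hi : ∀ p ∈ s, Integrable (fun ω => φ (β p ω)) P := fun p hp =>
    Integrable.of_bound (hm p hp).aestronglyMeasurable 1 (Filter.Eventually.of_forall fun ω => by
      rw [Real.norm_eq_abs, abs_of_nonneg (hφ0 _)]
      exact hφ1 _)
  have key : ∀ S ⊆ s, ∫ ω, (∏ p ∈ S, φ (β p ω)) * ∏ p ∈ s \ S, (1 - φ (β p ω)) ∂P =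
      (∏ p ∈ S, ∫ ω, φ (β p ω) ∂P) * ∏ p ∈ s \ S, (1 - ∫ ω, φ (β p ω) ∂P) := by
    intro S hS
    set g : Plaq → ℝ → ℝ := fun p b => if p ∈ S then φ b else 1 - φ b with hg
    have hgm : ∀ p, Measurable (g p) := by
      intro p
      simp only [hg]
      split_ifs
      · exact hφ
      · exact measurable_const.sub hφ
    have e1 : ∀ ω, (∏ p ∈ S, φ (β p ω)) * ∏ p ∈ s \ S, (1 - φ (β p ω)) =
        ∏ p : s, g p.1 (β p.1 ω) := by
      intro ω
      rw [Finset.prod_coe_sort s (fun p => g p (β p ω)), ← Finset.prod_sdiff hS, mul_comm]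
      congr 1
      · refine Finset.prod_congr rfl fun p hp => ?_
        simp only [hg, if_neg (Finset.mem_sdiff.1 hp).2]
      · refine Finset.prod_congr rfl fun p hp => ?_
        simp only [hg, if_pos hp]
    simp only [e1]
    have hind : iIndepFun (fun p : s => β p.1) P := by
      have := hβi.precomp (g := fun p : s => (⟨p.1, hs p.1 p.2⟩ : {p : Plaq // isK k p})) (by
        intro a b hab
        exact Subtype.ext (congrArg (fun q : {p : Plaq // isK k p} => q.1) hab))
      exact this
    rw [hind.integral_fun_prod_comp (f := fun p : s => g p.1)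
      (fun p => (hβm p.1 (hs p.1 p.2)).aemeasurable)
      (fun p => (hgm p.1).aestronglyMeasurable)]
    rw [Finset.prod_coe_sort s (fun p => ∫ ω, g p (β p ω) ∂P), ← Finset.prod_sdiff hS, mul_comm]
    congr 1
    · refine Finset.prod_congr rfl fun p hp => ?_
      simp only [hg, if_pos hp]
    · refine Finset.prod_congr rfl fun p hp => ?_
      simp only [hg, if_neg (Finset.mem_sdiff.1 hp).2]
      rw [integral_sub (integrable_const _) (hi p (Finset.mem_sdiff.1 hp).1)]
      simp
  have hib : ∀ S ∈ s.powerset, Integrable (fun ω =>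
      (∏ p ∈ S, φ (β p ω)) * (∏ p ∈ s \ S, (1 - φ (β p ω))) * f S) P := by
    intro S hS
    rw [Finset.mem_powerset] at hS
    refine Integrable.mul_const ?_ _
    refine Integrable.of_bound (C := 1) ?_ (Filter.Eventually.of_forall fun ω => ?_)
    · refine Measurable.aestronglyMeasurable ?_
      refine (Finset.measurable_prod _ fun p hp => hm p (hS hp)).mul
        (Finset.measurable_prod _ fun p hp => ?_)
      exact measurable_const.sub (hm p (Finset.mem_sdiff.1 hp).1)
    · have a1 : 0 ≤ ∏ p ∈ S, φ (β p ω) := Finset.prod_nonneg fun p _ => hφ0 _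
      have a2 : ∏ p ∈ S, φ (β p ω) ≤ 1 := Finset.prod_le_one (fun p _ => hφ0 _) fun p _ => hφ1 _
      have a3 : 0 ≤ ∏ p ∈ s \ S, (1 - φ (β p ω)) :=
        Finset.prod_nonneg fun p _ => sub_nonneg.2 (hφ1 _)
      have a4 : ∏ p ∈ s \ S, (1 - φ (β p ω)) ≤ 1 :=
        Finset.prod_le_one (fun p _ => sub_nonneg.2 (hφ1 _)) fun p _ => by
          have := hφ0 (β p ω)
          linarith
      rw [Real.norm_eq_abs, abs_of_nonneg (mul_nonneg a1 a3)]
      exact mul_le_one₀ a2 a3 a4
  unfold B
  rw [integral_finsetSum _ hib]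
  refine Finset.sum_congr rfl fun S hS => ?_
  rw [integral_mul_const, key S (Finset.mem_powerset.1 hS)]

end random

end Pool.Agent.V11262.PD
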