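import Pool.Agent.V11262.PD.Dec

/-!
# Sparse walls of weak plaquettes
-/

set_option autoImplicit false
set_option linter.unusedSectionVars false

noncomputable section

namespace Pool.Agent.V11262.PD

open MeasureTheory Measure Pool.Agent.V11262.OP Pool.Agent.H678R3.Perc

/-- the plaquettes which contain a link that starts in a wall and is orthogonal to it -/
def Wl (L : ℕ) (p : Plaq) : Prop := (L : ℤ) ∣ p.1.1 p.1.2.1 ∨ (L : ℤ) ∣ p.1.1 p.1.2.2

lemma Wl_of {L : ℕ} {p : Plaq} {k : Fin 4} (h : isK k p) (hd : (L : ℤ) ∣ p.1.1 k) : Wl L p := by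
  rcases h with h | h
  · left; rw [h]; exact hd
  · right; rw [h]; exact hd

/-- the time slices in the walls -/
def sl (L T : ℕ) (a : ℤ) : Finset ℕ := (Finset.range T).filter fun t => (L : ℤ) ∣ a + t

lemma card_sl {L : ℕ} (hL : 0 < L) (T : ℕ) (a : ℤ) : T / L ≤ (sl L T a).card := by
  have hLz : (0 : ℤ) < L := by exact_mod_cast hL
  obtain ⟨s, hs⟩ : ∃ s : ℕ, (s : ℤ) = (-a) % L :=
    ⟨((-a) % L).toNat, Int.toNat_of_nonneg (Int.emod_nonneg _ hLz.ne')⟩
  have hsL : s < L := by
    have := Int.emod_lt_of_pos (-a) hLz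
    omega
  have hsd : (L : ℤ) ∣ a + s := by
    rw [hs]
    have h1 := Int.emod_add_mul_ediv (-a) L
    refine ⟨-((-a) / L), ?_⟩
    linarith
  have h1 : ((Finset.range (T / L)).image fun q => q * L + s) ⊆ sl L T a := by
    intro t ht
    obtain ⟨q, hq, rfl⟩ := Finset.mem_image.1 ht
    rw [Finset.mem_range] at hq
    unfold sl
    rw [Finset.mem_filter, Finset.mem_range]
    constructor
    · have h2 : (q + 1) * L ≤ T / L * L := Nat.mul_le_mul_right _ hq
      have h3 := Nat.div_mul_le_self T L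
      nlinarith
    · push_cast
      have : a + ((q : ℤ) * L + s) = (a + s) + q * L := by ring
      rw [this]
      exact dvd_add hsd (dvd_mul_left _ _)
  have h2 : ((Finset.range (T / L)).image fun q => q * L + s).card = T / L := by
    rw [Finset.card_image_of_injective, Finset.card_range]
    intro q q' h
    have h' : q * L = q' * L := by simpa using h
    exact Nat.eq_of_mul_eq_mul_right hL h'
  rw [← h2]
  exact Finset.card_le_card h1

variable {G : Type} [Group G] [TopologicalSpace G] [IsTopologicalGroup G] [CompactSpace G]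
  [SecondCountableTopology G] [MeasurableSpace G] [BorelSpace G] (σ : Measure G)
  [IsProbabilityMeasure σ] [σ.IsHaarMeasure] {w : Plaq → G → ℝ}

open Classical in
theorem wall {L : ℕ} (hL : 0 < L) {m : ℝ} (hm : 0 ≤ m)
    (hwm : ∀ p, Measurable (w p)) (hwb : ∀ p, Bd (w p)) (hw0 : ∀ p g, 0 ≤ w p g)
    (hW : ∀ p, Wl L p → ∀ g h, (1 - Real.exp (-m) / 6) * w p h ≤ w p g)
    {N : ℕ} {π : G →* Matrix.unitaryGroup (Fin N) ℂ} (hπ : Continuous π)
    {z : G} (hz : ∀ g, z * g = g * z) {ζ : ℂ}
    (hζ : (π z : Matrix (Fin N) (Fin N) ℂ) = ζ • (1 : Matrix (Fin N) (Fin N) ℂ)) (hζ1 : ζ ≠ 1)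
    {j k : Fin 4} (hjk : j ≠ k) (x : Site) (R T : ℕ) (Λ : Finset Plaq) :
    ‖ex σ w Λ (wl π x (rct j k R T))‖ ≤
      N * Real.exp (-(m * (R * T - (L - 1) * min R T) / L)) := by
  set r : Plaq → ℝ := fun p => if Wl L p then Real.exp (-m) / 6 else 1 with hr
  have he0 := Real.exp_pos (-m)
  have he1 : Real.exp (-m) ≤ 1 := Real.exp_le_one_iff.2 (by linarith)
  have hr0 : ∀ p, 0 ≤ r p := by intro p; simp only [hr]; split_ifs <;> positivity
  have hr1 : ∀ p, r p ≤ 1 := by intro p; simp only [hr]; split_ifs <;> linarith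
  have hrw : ∀ p g h, (1 - r p) * w p h ≤ w p g := by
    intro p g h
    simp only [hr]
    split_ifs with hp
    · exact hW p hp g h
    · rw [sub_self, zero_mul]
      exact hw0 p g
  have hLr : (0 : ℝ) < L := by exact_mod_cast hL
  have key : ∀ (i l : Fin 4) (A C : ℕ), i ≠ l →
      B Λ r (fun S => if Ev i l A C x S then 1 else 0) ≤ Real.exp (-(m * (A * (C / L : ℕ)))) := by
    intro i l A C hil
    have h1 := decay_ev hr0 hr1 (ρ := Real.exp (-m) / 6) (by positivity) (by linarith) Λ hil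
      (R := A) (T := C) (x := x) (sl L C (x l)) (fun t ht => Finset.mem_range.1 (Finset.mem_filter.1 ht).1)
      (by
        intro t ht p _ hk hp
        have h2 := (Finset.mem_filter.1 ht).2
        rw [← hp] at h2
        simp only [hr]
        rw [if_pos (Wl_of hk h2)])
    refine h1.trans ?_
    have h2 : 6 * (Real.exp (-m) / 6) = Real.exp (-m) := by ring
    rw [h2]
    calc Real.exp (-m) ^ (A * (sl L C (x l)).card) ≤ Real.exp (-m) ^ (A * (C / L)) :=
          pow_le_pow_of_le_one he0.le he1 (Nat.mul_le_mul_left _ (card_sl hL C (x l)))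
      _ = _ := by
          rw [← Real.exp_nat_mul]
          congr 1
          push_cast
          ring
  have hdiv : ∀ C : ℕ, (C : ℝ) - (L - 1) ≤ L * (C / L : ℕ) := by
    intro C
    have h1 := Nat.div_add_mod C L
    have h2 := Nat.mod_lt C hL
    have h3 : C + 1 ≤ L * (C / L) + L := by omega
    have h4 : ((C + 1 : ℕ) : ℝ) ≤ ((L * (C / L) + L : ℕ) : ℝ) := by exact_mod_cast h3
    push_cast at h4
    linarith
  rcases le_total R T with hRT | hRT
  · refine (core_k σ hwm hwb hw0 hr0 hr1 hrw hπ hz hζ hζ1 hjk x R T Λ).trans ?_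
    refine mul_le_mul_of_nonneg_left ((key j k R T hjk).trans ?_) (Nat.cast_nonneg _)
    rw [Real.exp_le_exp, neg_le_neg_iff, div_le_iff₀ hLr]
    rw [min_eq_left (by exact_mod_cast hRT)]
    have h1 := mul_le_mul_of_nonneg_left (hdiv T) (mul_nonneg hm (Nat.cast_nonneg R))
    nlinarith
  · refine (core_j σ hwm hwb hw0 hr0 hr1 hrw hπ hz hζ hζ1 hjk x R T Λ).trans ?_
    refine mul_le_mul_of_nonneg_left ((key k j T R hjk.symm).trans ?_) (Nat.cast_nonneg _)
    rw [Real.exp_le_exp, neg_le_neg_iff, div_le_iff₀ hLr]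
    rw [min_eq_right (by exact_mod_cast hRT)]
    have h1 := mul_le_mul_of_nonneg_left (hdiv R) (mul_nonneg hm (Nat.cast_nonneg T))
    nlinarith

/-- the plaquettes with base point in a cube -/
def cub (L : ℕ) (a : Site) : Finset Plaq :=
  Finset.subtype (fun p : Site × Fin 4 × Fin 4 => p.2.1 < p.2.2)
    ((Fintype.piFinset fun i => Finset.Ico (a i) (a i + L)) ×ˢ Finset.univ)

lemma mem_cub {L : ℕ} {a : Site} {p : Plaq} :
    p ∈ cub L a ↔ ∀ i, a i ≤ p.1.1 i ∧ p.1.1 i < a i + L := by
  unfold cub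
  rw [Finset.mem_subtype, Finset.mem_product, Fintype.mem_piFinset]
  simp

lemma uniq {L : ℕ} {a u v : ℤ} (hu : (L : ℤ) ∣ u) (hv : (L : ℤ) ∣ v) (h1 : a ≤ u) (h2 : u < a + L)
    (h3 : a ≤ v) (h4 : v < a + L) : u = v := by
  have h5 : (L : ℤ) ∣ u - v := dvd_sub hu hv
  have h6 : u - v = 0 := by
    refine Int.eq_zero_of_abs_lt_dvd h5 ?_
    rw [abs_lt]
    constructor <;> omega
  omega

open Classical in
lemma count {L : ℕ} (hL : 0 < L) (a : Site) (d : Fin 4 × Fin 4 → Fin 4) :
    L * ((cub L a).filter fun p => (L : ℤ) ∣ p.1.1 (d p.1.2)).card ≤ (cub L a).card := by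
  rw [← Finset.card_range L, ← Finset.card_product, Finset.card_range]
  let f : ℕ × Plaq → Plaq := fun q =>
    ⟨(Function.update q.2.1.1 (d q.2.1.2) (a (d q.2.1.2) + q.1), q.2.1.2), q.2.2⟩
  refine Finset.card_le_card_of_injOn f ?_ ?_
  · rintro ⟨s, p⟩ hq
    rw [Finset.mem_coe, Finset.mem_product, Finset.mem_range, Finset.mem_filter, mem_cub] at hq
    rw [Finset.mem_coe, mem_cub]
    intro i
    change a i ≤ Function.update p.1.1 (d p.1.2) (a (d p.1.2) + (s : ℤ)) i ∧
      Function.update p.1.1 (d p.1.2) (a (d p.1.2) + (s : ℤ)) i < a i + L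
    by_cases hi : i = d p.1.2
    · subst hi
      rw [Function.update_self]
      have := hq.1
      simp only at this
      omega
    · rw [Function.update_of_ne hi]
      exact hq.2.1 i
  · rintro ⟨s, p⟩ hq ⟨s', p'⟩ hq' h
    rw [Finset.mem_coe, Finset.mem_product, Finset.mem_range, Finset.mem_filter, mem_cub] at hq hq'
    have h1 : (Function.update p.1.1 (d p.1.2) (a (d p.1.2) + (s : ℤ)), p.1.2) =
        (Function.update p'.1.1 (d p'.1.2) (a (d p'.1.2) + (s' : ℤ)), p'.1.2) :=
      congrArg Subtype.val h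
    obtain ⟨h2, h3⟩ := Prod.ext_iff.1 h1
    simp only at h2 h3 hq hq'
    rw [← h3] at h2
    have h4 := congrFun h2 (d p.1.2)
    rw [Function.update_self, Function.update_self] at h4
    have h5 : s = s' := by omega
    have h6 : p.1.1 = p'.1.1 := by
      funext i
      by_cases hi : i = d p.1.2
      · subst hi
        have hq'2 := hq'.2.2
        rw [← h3] at hq'2
        exact uniq hq.2.2 hq'2 (hq.2.1 _).1 (hq.2.1 _).2 (hq'.2.1 _).1 (hq'.2.1 _).2
      · have h7 := congrFun h2 i
        rwa [Function.update_of_ne hi, Function.update_of_ne hi] at h7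
    have h7 : p = p' := Subtype.ext (Prod.ext h6 h3)
    rw [h5, h7]

open Classical in
/-- the density of the walls -/
theorem density {L : ℕ} (hL : 0 < L) (a : Site) :
    L * ((cub L a).filter (Wl L)).card ≤ 2 * (cub L a).card := by
  have h1 := count hL a Prod.fst
  have h2 := count hL a Prod.snd
  have h3 : ((cub L a).filter (Wl L)).card ≤
      ((cub L a).filter fun p => (L : ℤ) ∣ p.1.1 (Prod.fst p.1.2)).card +
        ((cub L a).filter fun p => (L : ℤ) ∣ p.1.1 (Prod.snd p.1.2)).card := by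
    refine (Finset.card_le_card ?_).trans (Finset.card_union_le _ _)
    intro p hp
    rw [Finset.mem_filter] at hp
    rw [Finset.mem_union, Finset.mem_filter, Finset.mem_filter]
    rcases hp.2 with h | h
    · exact Or.inl ⟨hp.1, h⟩
    · exact Or.inr ⟨hp.1, h⟩
  have h4 := Nat.mul_le_mul_left L h3
  rw [Nat.mul_add] at h4
  omega

end Pool.Agent.V11262.PD
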